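import Pool.Agent.H370R2.NT

/-! Partial summation on a logarithmic scale. -/

open Filter Topology Set MeasureTheory

namespace Pool.Agent.D0H26.WM

open H370

/-- partial summation: if `∑_{k ≤ n} w k` is within `Φ v` of `m v` for `log n ≤ v ≤ log (n + 1)` -/
theorem abel_log (w : ℕ → ℝ) (m Φ G G' : ℝ → ℝ) (N : ℕ) (hN : 1 ≤ N)
    (hm : Continuous m) (hΦ : Continuous Φ) (hG : ∀ v, HasDerivAt G (G' v) v) (hG' : Continuous G')
    (hE : ∀ n : ℕ, 1 ≤ n → ∀ v : ℝ, Real.log n ≤ v → v ≤ Real.log ((n + 1 : ℕ) : ℝ) →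
      |∑ k ∈ Finset.Icc 1 n, w k - m v| ≤ Φ v) :
    |∑ n ∈ Finset.Icc 1 N, w n * G (Real.log n) -
      (m (Real.log N) * G (Real.log N) - ∫ v in (0 : ℝ)..(Real.log N), m v * G' v)| ≤
      Φ (Real.log N) * |G (Real.log N)| + ∫ v in (0 : ℝ)..(Real.log N), Φ v * |G' v| := by
  have hmono : ∀ n : ℕ, 1 ≤ n → Real.log n ≤ Real.log ((n + 1 : ℕ) : ℝ) := by
    intro n hn
    apply Real.log_le_log (by exact_mod_cast hn)
    push_cast; linarith
  have hi1 : ∀ a b : ℝ, IntervalIntegrable (fun v => m v * G' v) volume a b := fun a b =>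
    (hm.mul hG').intervalIntegrable a b
  have hi2 : ∀ a b : ℝ, IntervalIntegrable (fun v => Φ v * |G' v|) volume a b := fun a b =>
    (hΦ.mul hG'.abs).intervalIntegrable a b
  have hi3 : ∀ a b : ℝ, IntervalIntegrable G' volume a b := fun a b => hG'.intervalIntegrable a b
  rw [nt_abel w (fun n => G (Real.log n)) N hN]
  set S : ℕ → ℝ := fun n => ∑ k ∈ Finset.Icc 1 n, w k with hS
  -- the sum over cells
  have key : ∀ K : ℕ, 1 ≤ K →
      |∑ n ∈ Finset.Ico 1 K, S n * (G (Real.log ((n + 1 : ℕ) : ℝ)) - G (Real.log n)) -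
        ∫ v in (0 : ℝ)..(Real.log K), m v * G' v| ≤ ∫ v in (0 : ℝ)..(Real.log K), Φ v * |G' v| := by
    intro K hK
    induction K, hK using Nat.le_induction with
    | base => simp
    | succ K hK ih =>
      rw [Finset.sum_Ico_succ_top hK]
      have h0 := hmono K hK
      have e1 := intervalIntegral.integral_add_adjacent_intervals
        (hi1 0 (Real.log K)) (hi1 (Real.log K) (Real.log ((K + 1 : ℕ) : ℝ)))
      have e2 := intervalIntegral.integral_add_adjacent_intervals
        (hi2 0 (Real.log K)) (hi2 (Real.log K) (Real.log ((K + 1 : ℕ) : ℝ)))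
      have e3 : G (Real.log ((K + 1 : ℕ) : ℝ)) - G (Real.log K) =
          ∫ v in (Real.log K)..(Real.log ((K + 1 : ℕ) : ℝ)), G' v :=
        (intervalIntegral.integral_eq_sub_of_hasDerivAt (fun v _ => hG v) (hi3 _ _)).symm
      have e4 : |S K * (G (Real.log ((K + 1 : ℕ) : ℝ)) - G (Real.log K)) -
          ∫ v in (Real.log K)..(Real.log ((K + 1 : ℕ) : ℝ)), m v * G' v| ≤
          ∫ v in (Real.log K)..(Real.log ((K + 1 : ℕ) : ℝ)), Φ v * |G' v| := by
        rw [e3, ← intervalIntegral.integral_const_mul, ← intervalIntegral.integral_sub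
          ((hi3 _ _).const_mul _) (hi1 _ _)]
        refine (intervalIntegral.abs_integral_le_integral_abs h0).trans ?_
        refine intervalIntegral.integral_mono_on h0 ?_ (hi2 _ _) fun v hv => ?_
        · exact ((continuous_const.mul hG').sub (hm.mul hG')).abs.intervalIntegrable _ _
        · rw [← sub_mul, abs_mul]
          exact mul_le_mul_of_nonneg_right (hE K hK v hv.1 hv.2) (abs_nonneg _)
      rw [← e1, ← e2]
      calc _ = |(∑ n ∈ Finset.Ico 1 K, S n * (G (Real.log ((n + 1 : ℕ) : ℝ)) - G (Real.log n)) -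
              ∫ v in (0 : ℝ)..(Real.log K), m v * G' v) +
            (S K * (G (Real.log ((K + 1 : ℕ) : ℝ)) - G (Real.log K)) -
              ∫ v in (Real.log K)..(Real.log ((K + 1 : ℕ) : ℝ)), m v * G' v)| := by
            congr 1; ring
        _ ≤ _ := (abs_add_le _ _).trans (add_le_add ih e4)
  have h1 := key N hN
  have h2 := hE N hN (Real.log N) le_rfl (hmono N hN)
  have h3 : |(S N - m (Real.log N)) * G (Real.log N)| ≤ Φ (Real.log N) * |G (Real.log N)| := by
    rw [abs_mul]
    exact mul_le_mul_of_nonneg_right h2 (abs_nonneg _)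
  calc _ = |(S N - m (Real.log N)) * G (Real.log N) -
        (∑ n ∈ Finset.Ico 1 N, S n * (G (Real.log ((n + 1 : ℕ) : ℝ)) - G (Real.log n)) -
        ∫ v in (0 : ℝ)..(Real.log N), m v * G' v)| := by
        congr 1; ring
    _ ≤ |(S N - m (Real.log N)) * G (Real.log N)| +
        |∑ n ∈ Finset.Ico 1 N, S n * (G (Real.log ((n + 1 : ℕ) : ℝ)) - G (Real.log n)) -
        ∫ v in (0 : ℝ)..(Real.log N), m v * G' v| := abs_sub _ _
    _ ≤ _ := add_le_add h3 h1

end Pool.Agent.D0H26.WM
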