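import Pool.Agent.D0H26.WM.Prm
import Pool.Agent.TH803.TW.Par

/-! The prime number theorem with Gaussian weights. -/

open Filter Topology Set MeasureTheory

namespace Pool.Agent.D0H26.WM

open H370 H370.A2

lemma exp_ab (x : ℝ) : (1 + |x|) * Real.exp (-(1 / 2) * x ^ 2) ≤ 2 := by
  have h1 : 1 + |x| ≤ 2 * Real.exp ((1 / 2) * x ^ 2) := by
    have h2 := Real.add_one_le_exp ((1 / 2) * x ^ 2)
    have h3 : |x| ≤ (1 + x ^ 2) / 2 := by
      have := sq_nonneg (|x| - 1)
      have h4 := sq_abs x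
      nlinarith
    nlinarith [sq_nonneg x]
  calc (1 + |x|) * Real.exp (-(1 / 2) * x ^ 2) ≤
      2 * Real.exp ((1 / 2) * x ^ 2) * Real.exp (-(1 / 2) * x ^ 2) := by gcongr
    _ = 2 := by
        rw [mul_assoc, ← Real.exp_add]
        norm_num

lemma exp_ab1 (x : ℝ) : (1 + |x|) * Real.exp (-1 * x ^ 2) ≤ 2 := by
  refine le_trans ?_ (exp_ab x)
  gcongr
  nlinarith [sq_nonneg x]

/-- the shifted weight -/
lemma E_le (u v : ℝ) : Real.exp (-v - (u - v) ^ 2) ≤
    Real.exp (1 / 2 - u) * Real.exp (-(1 / 2) * (u - v) ^ 2) := by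
  rw [← Real.exp_add]
  apply Real.exp_le_exp.2
  nlinarith [sq_nonneg (u - v - 1)]

theorem lam_asym (η : ℝ) (hη : 0 < η) : ∃ K : ℝ, 0 ≤ K ∧ ∀ (u : ℝ) (N : ℕ), 0 ≤ u → 1 ≤ N →
    |∑ n ∈ Finset.Icc 1 N, ArithmeticFunction.vonMangoldt n *
        (Real.log n * Real.exp (-Real.log n - (u - Real.log n) ^ 2)) -
      ∫ v in (0 : ℝ)..(Real.log N), v * Real.exp (-(u - v) ^ 2)| ≤ η * (1 + u) + K := by
  have hm2 := mom_nonneg 1 2
  have hm3 := mom_nonneg (1 / 2) 2
  set δ : ℝ := η / (2 + 2 * mom 1 2) with hδ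
  have hδ0 : 0 < δ := by positivity
  obtain ⟨K0, hK0, hpsi⟩ := psi_bd δ hδ0
  set K : ℝ := K0 + 1 with hK
  have hKp : 0 ≤ K := by positivity
  refine ⟨K * (4 + 4 * mom (1 / 2) 2), by positivity, fun u N hu hN => ?_⟩
  set l := Real.log (N : ℝ) with hl
  have hl0 : 0 ≤ l := Real.log_natCast_nonneg N
  set G : ℝ → ℝ := fun v => v * Real.exp (-v - (u - v) ^ 2) with hG
  set G' : ℝ → ℝ := fun v => (1 + v * (-1 + 2 * (u - v))) * Real.exp (-v - (u - v) ^ 2) with hG'
  have hd : ∀ v : ℝ, HasDerivAt G (G' v) v := by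
    intro v
    have h1 : HasDerivAt (fun v : ℝ => -v - (u - v) ^ 2) (-1 + 2 * (u - v)) v := by
      have h2 : HasDerivAt (fun v : ℝ => u - v) (-1) v := (hasDerivAt_id v).const_sub u
      refine ((hasDerivAt_id v).neg.sub (h2.pow 2)).congr_deriv ?_
      push_cast
      ring
    refine ((hasDerivAt_id v).mul h1.exp).congr_deriv ?_
    simp only [hG', id]
    ring
  have hGc : Continuous G' := by simp only [hG']; fun_prop
  have h := abel_log ArithmeticFunction.vonMangoldt (fun v => Real.exp v)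
    (fun v => δ * Real.exp v + K) G G' N hN (by fun_prop) (by fun_prop) hd hGc
    (fun n hn v hv1 hv2 => by
      have hn0 : (0 : ℝ) < n := by exact_mod_cast hn
      rw [sum_lam]
      have h1 := hpsi n hn0.le
      have h2 : (n : ℝ) ≤ Real.exp v := by
        rw [← Real.exp_log hn0]; exact Real.exp_le_exp.2 hv1
      have h3 : Real.exp v ≤ n + 1 := by
        have h4 : (0 : ℝ) < ((n + 1 : ℕ) : ℝ) := by positivity
        calc Real.exp v ≤ Real.exp (Real.log ((n + 1 : ℕ) : ℝ)) := Real.exp_le_exp.2 hv2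
          _ = n + 1 := by rw [Real.exp_log h4]; push_cast; ring
      have h5 : δ * (n : ℝ) ≤ δ * Real.exp v := mul_le_mul_of_nonneg_left h2 hδ0.le
      rw [abs_le] at h1 ⊢
      constructor <;> linarith [h1.1, h1.2])
  rw [← hl] at h
  -- the main term
  have hmain : Real.exp l * G l - ∫ v in (0 : ℝ)..l, Real.exp v * G' v =
      ∫ v in (0 : ℝ)..l, v * Real.exp (-(u - v) ^ 2) := by
    have hd2 : ∀ v : ℝ, HasDerivAt (fun v => Real.exp v * G v)
        (Real.exp v * G v + Real.exp v * G' v) v := fun v => (Real.hasDerivAt_exp v).mul (hd v)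
    have hGcc : Continuous G := by simp only [hG]; fun_prop
    have i1 : IntervalIntegrable (fun v => Real.exp v * G v) volume 0 l :=
      (Real.continuous_exp.mul hGcc).intervalIntegrable _ _
    have i2 : IntervalIntegrable (fun v => Real.exp v * G' v) volume 0 l :=
      (Real.continuous_exp.mul hGc).intervalIntegrable _ _
    have h1 := intervalIntegral.integral_eq_sub_of_hasDerivAt (a := 0) (b := l)
      (fun v _ => hd2 v) (i1.add i2)
    rw [intervalIntegral.integral_add i1 i2] at h1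
    have h2 : G 0 = 0 := by simp [hG]
    rw [h2, mul_zero, sub_zero] at h1
    rw [← h1, add_sub_cancel_right]
    refine intervalIntegral.integral_congr fun v _ => ?_
    simp only [hG]
    have : Real.exp v * Real.exp (-v - (u - v) ^ 2) = Real.exp (-(u - v) ^ 2) := by
      rw [← Real.exp_add]; congr 1; ring
    rw [← this]; ring
  rw [hmain] at h
  have hu1 : Real.exp (1 / 2 - u) * (1 + u) ≤ 2 := by
    have h1 : 1 + u ≤ Real.exp u := by linarith [Real.add_one_le_exp u]
    calc Real.exp (1 / 2 - u) * (1 + u) ≤ Real.exp (1 / 2 - u) * Real.exp u := by gcongr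
      _ = Real.exp (1 / 2) := by rw [← Real.exp_add]; congr 1; ring
      _ ≤ 2 := by
          have h2 : Real.exp (1 / 2) ^ 2 = Real.exp 1 := by
            rw [← Real.exp_nat_mul]; norm_num
          have h3 := Real.exp_one_lt_d9
          have h4 := Real.exp_pos (1 / 2 : ℝ)
          nlinarith
  have hlu : l ≤ (1 + u) * (1 + |u - l|) := by
    have : l ≤ u + |u - l| := by have := neg_abs_le (u - l); linarith
    nlinarith [abs_nonneg (u - l)]
  -- the boundary term
  have hb : (δ * Real.exp l + K) * |G l| ≤ δ * (2 * (1 + u)) + K * 4 := by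
    have e1 : |G l| = l * Real.exp (-l - (u - l) ^ 2) := by
      simp only [hG]
      rw [abs_of_nonneg (by positivity)]
    have e2 : Real.exp l * (l * Real.exp (-l - (u - l) ^ 2)) ≤ 2 * (1 + u) := by
      have e3 : Real.exp l * Real.exp (-l - (u - l) ^ 2) = Real.exp (-1 * (u - l) ^ 2) := by
        rw [← Real.exp_add]; congr 1; ring
      calc Real.exp l * (l * Real.exp (-l - (u - l) ^ 2)) =
          l * Real.exp (-1 * (u - l) ^ 2) := by rw [← e3]; ring
        _ ≤ (1 + u) * (1 + |u - l|) * Real.exp (-1 * (u - l) ^ 2) := by gcongr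
        _ = (1 + u) * ((1 + |u - l|) * Real.exp (-1 * (u - l) ^ 2)) := by ring
        _ ≤ (1 + u) * 2 := by
            apply mul_le_mul_of_nonneg_left (exp_ab1 _) (by linarith)
        _ = _ := by ring
    have e4 : l * Real.exp (-l - (u - l) ^ 2) ≤ 4 := by
      calc l * Real.exp (-l - (u - l) ^ 2) ≤ ((1 + u) * (1 + |u - l|)) *
            (Real.exp (1 / 2 - u) * Real.exp (-(1 / 2) * (u - l) ^ 2)) := by
            gcongr
            exact E_le u l
        _ = (Real.exp (1 / 2 - u) * (1 + u)) *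
            ((1 + |u - l|) * Real.exp (-(1 / 2) * (u - l) ^ 2)) := by ring
        _ ≤ 2 * 2 := by
            gcongr
            exact exp_ab _
        _ = 4 := by norm_num
    rw [e1]
    calc (δ * Real.exp l + K) * (l * Real.exp (-l - (u - l) ^ 2)) =
        δ * (Real.exp l * (l * Real.exp (-l - (u - l) ^ 2))) +
          K * (l * Real.exp (-l - (u - l) ^ 2)) := by ring
      _ ≤ _ := by gcongr
  -- the integral
  have hG'b : ∀ v ∈ Icc 0 l, |1 + v * (-1 + 2 * (u - v))| ≤ 2 * (1 + u) * (1 + |u - v|) ^ 2 := by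
    intro v hv
    have h1 : v ≤ u + |u - v| := by have := neg_abs_le (u - v); linarith
    have h2 : |(-1 : ℝ) + 2 * (u - v)| ≤ 1 + 2 * |u - v| := by
      refine (abs_add_le _ _).trans ?_
      rw [abs_mul]
      norm_num
    have h3 : |1 + v * (-1 + 2 * (u - v))| ≤ 1 + v * (1 + 2 * |u - v|) := by
      refine (abs_add_le _ _).trans ?_
      rw [abs_one, abs_mul, abs_of_nonneg hv.1]
      have := mul_le_mul_of_nonneg_left h2 hv.1
      linarith
    refine h3.trans ?_
    have h4 := abs_nonneg (u - v)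
    have h5 : v * (1 + 2 * |u - v|) ≤ (u + |u - v|) * (1 + 2 * |u - v|) := by gcongr
    nlinarith [mul_nonneg hu h4, mul_nonneg hu (mul_nonneg h4 h4)]
  have hi : ∫ v in (0 : ℝ)..l, (δ * Real.exp v + K) * |G' v| ≤
      δ * (2 * (1 + u)) * mom 1 2 + K * 4 * mom (1 / 2) 2 := by
    have i1 : Continuous fun v => δ * (Real.exp v * |G' v|) := by fun_prop
    have i2 : Continuous fun v => K * |G' v| := by fun_prop
    have e1 : ∫ v in (0 : ℝ)..l, (δ * Real.exp v + K) * |G' v| =
        (∫ v in (0 : ℝ)..l, δ * (Real.exp v * |G' v|)) + ∫ v in (0 : ℝ)..l, K * |G' v| := by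
      rw [← intervalIntegral.integral_add (i1.intervalIntegrable _ _) (i2.intervalIntegrable _ _)]
      refine intervalIntegral.integral_congr fun v _ => ?_
      ring
    rw [e1]
    refine add_le_add ?_ ?_
    · refine mom_bd 1 one_pos 2 u l hl0 _ _ i1 (fun v hv => ?_) (by positivity)
      simp only [hG']
      rw [abs_mul, abs_of_pos (Real.exp_pos _)]
      have e3 : Real.exp v * Real.exp (-v - (u - v) ^ 2) = Real.exp (-1 * (u - v) ^ 2) := by
        rw [← Real.exp_add]; congr 1; ring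
      calc δ * (Real.exp v * (|1 + v * (-1 + 2 * (u - v))| * Real.exp (-v - (u - v) ^ 2))) =
          δ * (|1 + v * (-1 + 2 * (u - v))| * Real.exp (-1 * (u - v) ^ 2)) := by rw [← e3]; ring
        _ ≤ δ * (2 * (1 + u) * (1 + |u - v|) ^ 2 * Real.exp (-1 * (u - v) ^ 2)) := by
            gcongr
            exact hG'b v hv
        _ = _ := by ring
    · refine mom_bd (1 / 2) (by norm_num) 2 u l hl0 _ _ i2 (fun v hv => ?_) (by positivity)
      simp only [hG']
      rw [abs_mul, abs_of_pos (Real.exp_pos _)]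
      calc K * (|1 + v * (-1 + 2 * (u - v))| * Real.exp (-v - (u - v) ^ 2)) ≤
          K * ((2 * (1 + u) * (1 + |u - v|) ^ 2) *
            (Real.exp (1 / 2 - u) * Real.exp (-(1 / 2) * (u - v) ^ 2))) := by
            gcongr
            · exact hG'b v hv
            · exact E_le u v
        _ = K * (2 * (Real.exp (1 / 2 - u) * (1 + u))) *
            ((1 + |u - v|) ^ 2 * Real.exp (-(1 / 2) * (u - v) ^ 2)) := by ring
        _ ≤ K * (2 * 2) * ((1 + |u - v|) ^ 2 * Real.exp (-(1 / 2) * (u - v) ^ 2)) := by gcongr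
        _ = _ := by ring
  refine h.trans ((add_le_add hb hi).trans (le_of_eq ?_))
  have : η = δ * (2 + 2 * mom 1 2) := by rw [hδ]; field_simp
  rw [this]
  ring

/-- the integral is close to `√π u` -/
lemma int_close (u l d : ℝ) (hd : 0 ≤ d) (h1 : d ≤ u) (h2 : d ≤ l - u) :
    |(∫ v in (0 : ℝ)..l, v * Real.exp (-(u - v) ^ 2)) - Real.sqrt Real.pi * u| ≤
      mom 1 1 + u * (Real.exp (-(d ^ 2 / 2)) * mom (1 / 2) 0) := by
  have hu : 0 ≤ u := hd.trans h1
  have hl : 0 ≤ l := by linarith
  have i1 : Continuous fun v : ℝ => Real.exp (-(u - v) ^ 2) := by fun_prop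
  have i2 : Continuous fun v : ℝ => (u - v) * Real.exp (-(u - v) ^ 2) := by fun_prop
  have e1 : ∫ v in (0 : ℝ)..l, v * Real.exp (-(u - v) ^ 2) =
      u * (∫ v in (0 : ℝ)..l, Real.exp (-(u - v) ^ 2)) -
        ∫ v in (0 : ℝ)..l, (u - v) * Real.exp (-(u - v) ^ 2) := by
    have i3 : Continuous fun v : ℝ => u * Real.exp (-(u - v) ^ 2) := by fun_prop
    rw [← intervalIntegral.integral_const_mul, ← intervalIntegral.integral_sub
      (i3.intervalIntegrable _ _) (i2.intervalIntegrable _ _)]
    refine intervalIntegral.integral_congr fun v _ => ?_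
    ring
  have e2 : |∫ v in (0 : ℝ)..l, (u - v) * Real.exp (-(u - v) ^ 2)| ≤ mom 1 1 := by
    refine (intervalIntegral.abs_integral_le_integral_abs hl).trans ?_
    have := mom_bd 1 one_pos 1 u l hl (fun v => |(u - v) * Real.exp (-(u - v) ^ 2)|) 1
      i2.abs (fun v _ => by
        rw [abs_mul, abs_of_pos (Real.exp_pos _), one_mul, pow_one]
        have h3 : -(u - v) ^ 2 = -1 * (u - v) ^ 2 := by ring
        rw [h3]
        gcongr
        linarith [abs_nonneg (u - v)]) zero_le_one
    rwa [one_mul] at this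
  have hint : Integrable (fun v : ℝ => Real.exp (-(u - v) ^ 2)) := by
    have := (g_int 1 one_pos 0).comp_sub_left u
    simpa using this
  have hint2 : Integrable (fun v : ℝ => Real.exp (-(1 / 2) * (u - v) ^ 2)) := by
    have := (g_int (1 / 2) (by norm_num) 0).comp_sub_left u
    simpa using this
  have hpi : ∫ v : ℝ, Real.exp (-(u - v) ^ 2) = Real.sqrt Real.pi := by
    rw [integral_sub_left_eq_self (fun x : ℝ => Real.exp (-x ^ 2)) volume u]
    exact nt_gauss
  have e3 : |Real.sqrt Real.pi - ∫ v in (0 : ℝ)..l, Real.exp (-(u - v) ^ 2)| ≤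
      Real.exp (-(d ^ 2 / 2)) * mom (1 / 2) 0 := by
    have h3 : Real.sqrt Real.pi - ∫ v in (0 : ℝ)..l, Real.exp (-(u - v) ^ 2) =
        ∫ v in (Ioc 0 l)ᶜ, Real.exp (-(u - v) ^ 2) := by
      rw [← hpi, intervalIntegral.integral_of_le hl,
        ← integral_add_compl (measurableSet_Ioc (a := (0 : ℝ)) (b := l)) hint]
      ring
    rw [h3, abs_of_nonneg (setIntegral_nonneg measurableSet_Ioc.compl
      fun v _ => (Real.exp_pos _).le)]
    calc ∫ v in (Ioc 0 l)ᶜ, Real.exp (-(u - v) ^ 2) ≤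
        ∫ v in (Ioc 0 l)ᶜ, Real.exp (-(d ^ 2 / 2)) * Real.exp (-(1 / 2) * (u - v) ^ 2) := by
          refine setIntegral_mono_on hint.integrableOn (hint2.const_mul _).integrableOn
            measurableSet_Ioc.compl fun v hv => ?_
          rw [← Real.exp_add]
          apply Real.exp_le_exp.2
          have h4 : d ^ 2 ≤ (u - v) ^ 2 := by
            rw [mem_compl_iff, mem_Ioc, not_and_or, not_lt, not_le] at hv
            rcases hv with h | h
            · apply pow_le_pow_left₀ hd; linarith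
            · have : (u - v) ^ 2 = (v - u) ^ 2 := by ring
              rw [this]
              apply pow_le_pow_left₀ hd; linarith
          nlinarith
      _ ≤ ∫ v : ℝ, Real.exp (-(d ^ 2 / 2)) * Real.exp (-(1 / 2) * (u - v) ^ 2) :=
          setIntegral_le_integral (hint2.const_mul _) (Eventually.of_forall fun v => by positivity)
      _ = Real.exp (-(d ^ 2 / 2)) * mom (1 / 2) 0 := by
          rw [integral_const_mul, mom]
          congr 1
          rw [← integral_sub_left_eq_self (fun x : ℝ => (1 + |x|) ^ 0 *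
            Real.exp (-(1 / 2) * x ^ 2)) volume u]
          simp
  rw [e1]
  calc |u * (∫ v in (0 : ℝ)..l, Real.exp (-(u - v) ^ 2)) -
        (∫ v in (0 : ℝ)..l, (u - v) * Real.exp (-(u - v) ^ 2)) - Real.sqrt Real.pi * u| =
      |-(u * (Real.sqrt Real.pi - ∫ v in (0 : ℝ)..l, Real.exp (-(u - v) ^ 2))) -
        ∫ v in (0 : ℝ)..l, (u - v) * Real.exp (-(u - v) ^ 2)| := by congr 1; ring
    _ ≤ |-(u * (Real.sqrt Real.pi - ∫ v in (0 : ℝ)..l, Real.exp (-(u - v) ^ 2)))| +
        |∫ v in (0 : ℝ)..l, (u - v) * Real.exp (-(u - v) ^ 2)| := abs_sub _ _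
    _ ≤ u * (Real.exp (-(d ^ 2 / 2)) * mom (1 / 2) 0) + mom 1 1 := by
        refine add_le_add ?_ e2
        rw [abs_neg, abs_mul, abs_of_nonneg hu]
        gcongr
    _ = _ := by ring

end Pool.Agent.D0H26.WM
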