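import Pool.Agent.D0H26.WM.Prod

/-! The mean square of the product of a prime polynomial and an arbitrary Dirichlet polynomial. -/

open Complex Filter Topology Set MeasureTheory
open scoped ComplexConjugate

namespace Pool.Agent.D0H26.WM

variable {W : Finset ℕ} {b c : ℕ → ℂ} {M X : ℕ}

open Classical in
/-- coefficients cut to `[1, M]` -/
noncomputable def cut (M : ℕ) (c : ℕ → ℂ) (n : ℕ) : ℂ := if n ∈ Finset.Icc 1 M then c n else 0

lemma sq_cplx (z : ℂ) : ((‖z‖ ^ 2 : ℝ) : ℂ) = z * conj z := by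
  rw [Complex.mul_conj']; push_cast; rfl

/-- the sum over the solutions of `p m = p' m'` -/
noncomputable def TT (M : ℕ) (c : ℕ → ℂ) (p p' : ℕ) : ℂ :=
  ∑ m ∈ Finset.Icc 1 M, ∑ m' ∈ Finset.Icc 1 M, if p * m = p' * m' then c m * conj (c m') else 0

lemma TT_same {p : ℕ} (hp : 1 ≤ p) :
    TT M c p p = ((∑ m ∈ Finset.Icc 1 M, ‖c m‖ ^ 2 : ℝ) : ℂ) := by
  unfold TT
  rw [Complex.ofReal_sum]
  refine Finset.sum_congr rfl fun m hm => ?_
  rw [sq_cplx, Finset.sum_eq_single_of_mem m hm]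
  · rw [if_pos rfl]
  · intro m' _ hne
    rw [if_neg]
    intro h
    exact hne (Nat.eq_of_mul_eq_mul_left (by omega) h).symm

/-- the correlation of the cut coefficients -/
noncomputable def VC (M : ℕ) (c : ℕ → ℂ) (p p' : ℕ) : ℂ :=
  ∑ j ∈ Finset.Icc 1 M, cut M c (p' * j) * conj (cut M c (p * j))

lemma TT_diff {p p' : ℕ} (hp : p.Prime) (hp' : p'.Prime) (hne : p ≠ p') :
    TT M c p p' = VC M c p p' := by
  classical
  have hcop : Nat.Coprime p' p := (Nat.coprime_primes hp' hp).2 (Ne.symm hne)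
  have h1 : TT M c p p' = ∑ x ∈ (Finset.Icc 1 M ×ˢ Finset.Icc 1 M).filter
      (fun x => p * x.1 = p' * x.2), c x.1 * conj (c x.2) := by
    unfold TT
    rw [Finset.sum_filter, Finset.sum_product]
  have h2 : VC M c p p' = ∑ j ∈ (Finset.Icc 1 M).filter
      (fun j => p' * j ∈ Finset.Icc 1 M ∧ p * j ∈ Finset.Icc 1 M),
      c (p' * j) * conj (c (p * j)) := by
    unfold VC
    rw [Finset.sum_filter]
    refine Finset.sum_congr rfl fun j _ => ?_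
    unfold cut
    by_cases h3 : p' * j ∈ Finset.Icc 1 M
    · by_cases h4 : p * j ∈ Finset.Icc 1 M
      · rw [if_pos h3, if_pos h4, if_pos ⟨h3, h4⟩]
      · have h5 : ¬ (p' * j ∈ Finset.Icc 1 M ∧ p * j ∈ Finset.Icc 1 M) := fun h => h4 h.2
        rw [if_neg h4, if_neg h5, map_zero, mul_zero]
    · have h5 : ¬ (p' * j ∈ Finset.Icc 1 M ∧ p * j ∈ Finset.Icc 1 M) := fun h => h3 h.1
      rw [if_neg h3, if_neg h5, zero_mul]
  rw [h1, h2]
  have key : ∀ x : ℕ × ℕ, p * x.1 = p' * x.2 → p' * (x.1 / p') = x.1 ∧ p * (x.1 / p') = x.2 := by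
    intro x hx
    have h3 : p' ∣ p * x.1 := hx ▸ dvd_mul_right p' x.2
    have h4 : p' ∣ x.1 := hcop.dvd_of_dvd_mul_left h3
    have h5 := Nat.mul_div_cancel' h4
    refine ⟨h5, ?_⟩
    have h6 : p' * (p * (x.1 / p')) = p' * x.2 := by
      rw [← hx, ← mul_assoc, mul_comm p' p, mul_assoc, h5]
    exact Nat.eq_of_mul_eq_mul_left hp'.pos h6
  refine Finset.sum_nbij' (fun x => x.1 / p') (fun j => (p' * j, p * j)) ?_ ?_ ?_ ?_ ?_
  · intro x hx
    rw [Finset.mem_filter, Finset.mem_product] at hx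
    obtain ⟨h3, h4⟩ := key x hx.2
    rw [Finset.mem_filter, h3, h4]
    refine ⟨?_, hx.1.1, hx.1.2⟩
    have h5 := Finset.mem_Icc.1 hx.1.1
    rw [Finset.mem_Icc]
    constructor
    · rcases Nat.eq_zero_or_pos (x.1 / p') with h0 | h0
      · rw [h0, mul_zero] at h3
        omega
      · exact h0
    · exact (Nat.div_le_self _ _).trans h5.2
  · intro j hj
    rw [Finset.mem_filter] at hj
    rw [Finset.mem_filter, Finset.mem_product]
    refine ⟨hj.2, ?_⟩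
    simp only
    ring
  · intro x hx
    rw [Finset.mem_filter] at hx
    obtain ⟨h3, h4⟩ := key x hx.2
    simp only [h3, h4]
  · intro j _
    simp only
    exact Nat.mul_div_cancel_left j hp'.pos
  · intro x hx
    rw [Finset.mem_filter] at hx
    obtain ⟨h3, h4⟩ := key x hx.2
    simp only [h3, h4]

/-- the sum of squares of the coefficients of the product as a double sum -/
lemma ek_T (hW : W ⊆ Finset.Icc 1 X) :
    ((∑ k ∈ Finset.Icc 1 (X * M), ‖ek W b c M k‖ ^ 2 : ℝ) : ℂ) =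
      ∑ p ∈ W, ∑ p' ∈ W, b p * conj (b p') * TT M c p p' := by
  classical
  rw [Complex.ofReal_sum]
  set P := W ×ˢ Finset.Icc 1 M with hP
  have h1 : ∀ k ∈ Finset.Icc 1 (X * M), ((‖ek W b c M k‖ ^ 2 : ℝ) : ℂ) =
      ∑ x ∈ P.filter (fun x => x.1 * x.2 = k), ∑ y ∈ P,
        if x.1 * x.2 = y.1 * y.2 then b x.1 * c x.2 * conj (b y.1 * c y.2) else 0 := by
    intro k _
    rw [sq_cplx]
    unfold ek
    rw [map_sum, Finset.sum_mul_sum]
    refine Finset.sum_congr rfl fun x hx => ?_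
    rw [Finset.sum_filter]
    refine Finset.sum_congr rfl fun y _ => ?_
    have hxk := (Finset.mem_filter.1 hx).2
    by_cases h : y.1 * y.2 = k
    · rw [if_pos h, if_pos (hxk.trans h.symm)]
    · rw [if_neg h, if_neg (fun h' => h (h'.symm.trans hxk))]
  rw [Finset.sum_congr rfl h1, Finset.sum_fiberwise_of_maps_to (maps hW), hP,
    Finset.sum_product]
  refine Finset.sum_congr rfl fun p _ => ?_
  have h2 : ∀ m ∈ Finset.Icc 1 M, (∑ y ∈ W ×ˢ Finset.Icc 1 M,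
      if (p, m).1 * (p, m).2 = y.1 * y.2 then b (p, m).1 * c (p, m).2 * conj (b y.1 * c y.2)
        else 0) =
      ∑ p' ∈ W, ∑ m' ∈ Finset.Icc 1 M, b p * conj (b p') *
        (if p * m = p' * m' then c m * conj (c m') else 0) := by
    intro m _
    rw [Finset.sum_product]
    refine Finset.sum_congr rfl fun p' _ => Finset.sum_congr rfl fun m' _ => ?_
    simp only
    by_cases h : p * m = p' * m'
    · rw [if_pos h, if_pos h, map_mul]; ring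
    · rw [if_neg h, if_neg h, mul_zero]
  rw [Finset.sum_congr rfl h2, Finset.sum_comm]
  refine Finset.sum_congr rfl fun p' _ => ?_
  unfold TT
  rw [Finset.mul_sum]
  refine Finset.sum_congr rfl fun m _ => ?_
  rw [Finset.mul_sum]

/-- the annihilation term -/
noncomputable def RW (W : Finset ℕ) (b c : ℕ → ℂ) (M : ℕ) : ℝ :=
  ∑ j ∈ Finset.Icc 1 M, ‖∑ p ∈ W, conj (b p) * cut M c (p * j)‖ ^ 2

/-- the small diagonal term -/
noncomputable def GW (W : Finset ℕ) (b c : ℕ → ℂ) (M : ℕ) : ℝ :=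
  ∑ p ∈ W, ‖b p‖ ^ 2 * ∑ j ∈ Finset.Icc 1 M, ‖cut M c (p * j)‖ ^ 2

lemma RW_cplx : ((RW W b c M : ℝ) : ℂ) = ∑ p ∈ W, ∑ p' ∈ W, b p * conj (b p') * VC M c p p' := by
  unfold RW
  rw [Complex.ofReal_sum]
  have h1 : ∀ j ∈ Finset.Icc 1 M, ((‖∑ p ∈ W, conj (b p) * cut M c (p * j)‖ ^ 2 : ℝ) : ℂ) =
      ∑ p ∈ W, ∑ p' ∈ W, b p * conj (b p') * (cut M c (p' * j) * conj (cut M c (p * j))) := by
    intro j _
    rw [sq_cplx, map_sum, Finset.sum_mul_sum, Finset.sum_comm]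
    refine Finset.sum_congr rfl fun p _ => Finset.sum_congr rfl fun p' _ => ?_
    rw [map_mul, Complex.conj_conj]
    ring
  rw [Finset.sum_congr rfl h1, Finset.sum_comm]
  refine Finset.sum_congr rfl fun p _ => ?_
  rw [Finset.sum_comm]
  refine Finset.sum_congr rfl fun p' _ => ?_
  unfold VC
  rw [Finset.mul_sum]

lemma GW_cplx : ((GW W b c M : ℝ) : ℂ) = ∑ p ∈ W, b p * conj (b p) * VC M c p p := by
  unfold GW
  rw [Complex.ofReal_sum]
  refine Finset.sum_congr rfl fun p _ => ?_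
  rw [Complex.ofReal_mul, sq_cplx, Complex.ofReal_sum]
  congr 1
  unfold VC
  exact Finset.sum_congr rfl fun j _ => sq_cplx _

/-- **the exact sum of squares of the coefficients of the product** -/
theorem ek_exact (hW : W ⊆ Finset.Icc 1 X) (hp : ∀ p ∈ W, p.Prime) :
    ∑ k ∈ Finset.Icc 1 (X * M), ‖ek W b c M k‖ ^ 2 + GW W b c M =
      (∑ p ∈ W, ‖b p‖ ^ 2) * (∑ m ∈ Finset.Icc 1 M, ‖c m‖ ^ 2) + RW W b c M := by
  classical
  apply Complex.ofReal_injective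
  rw [Complex.ofReal_add, Complex.ofReal_add, ek_T hW, GW_cplx, RW_cplx, Complex.ofReal_mul,
    Complex.ofReal_sum, Finset.sum_mul, ← Finset.sum_add_distrib, ← Finset.sum_add_distrib]
  refine Finset.sum_congr rfl fun p hpW => ?_
  have h1 : ∑ p' ∈ W, b p * conj (b p') * TT M c p p' =
      b p * conj (b p) * ((∑ m ∈ Finset.Icc 1 M, ‖c m‖ ^ 2 : ℝ) : ℂ) +
        ∑ p' ∈ W.erase p, b p * conj (b p') * VC M c p p' := by
    rw [← Finset.add_sum_erase W _ hpW, TT_same (hp p hpW).pos]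
    congr 1
    refine Finset.sum_congr rfl fun p' hp' => ?_
    rw [Finset.mem_erase] at hp'
    rw [TT_diff (hp p hpW) (hp p' hp'.2) (Ne.symm hp'.1)]
  have h2 : ∑ p' ∈ W, b p * conj (b p') * VC M c p p' = b p * conj (b p) * VC M c p p +
      ∑ p' ∈ W.erase p, b p * conj (b p') * VC M c p p' := by
    rw [← Finset.add_sum_erase W _ hpW]
  rw [h1, h2, sq_cplx]
  ring

open Classical in
/-- the cut coefficients at the multiples of `p` -/
lemma cut_mult (p : ℕ) (hp : 1 ≤ p) : ∑ j ∈ Finset.Icc 1 M, ‖cut M c (p * j)‖ ^ 2 ≤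
    ∑ m ∈ Finset.Icc 1 M, (if p ∣ m then ‖c m‖ ^ 2 else 0) := by
  rw [← Finset.sum_filter]
  have h1 : ∑ j ∈ Finset.Icc 1 M, ‖cut M c (p * j)‖ ^ 2 =
      ∑ j ∈ (Finset.Icc 1 M).filter (fun j => p * j ∈ Finset.Icc 1 M), ‖c (p * j)‖ ^ 2 := by
    rw [Finset.sum_filter]
    refine Finset.sum_congr rfl fun j _ => ?_
    unfold cut
    by_cases h : p * j ∈ Finset.Icc 1 M
    · rw [if_pos h, if_pos h]
    · rw [if_neg h, if_neg h]; simp
  rw [h1]
  have hinj : Set.InjOn (fun j => p * j)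
      ((Finset.Icc 1 M).filter (fun j => p * j ∈ Finset.Icc 1 M) : Set ℕ) := by
    intro a _ b _ h
    exact Nat.eq_of_mul_eq_mul_left (by omega) h
  rw [← Finset.sum_image (f := fun m => ‖c m‖ ^ 2) hinj]
  refine Finset.sum_le_sum_of_subset_of_nonneg ?_ fun _ _ _ => by positivity
  intro m hm
  rw [Finset.mem_image] at hm
  obtain ⟨j, hj, rfl⟩ := hm
  rw [Finset.mem_filter] at hj ⊢
  exact ⟨hj.2, dvd_mul_right p j⟩

open Classical in
lemma cut_sum (ω : ℝ) (hW1 : ∀ p ∈ W, 1 ≤ p)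
    (hω : ∀ m ∈ Finset.Icc 1 M, c m ≠ 0 → ((W.filter (fun p => p ∣ m)).card : ℝ) ≤ ω) :
    ∑ p ∈ W, ∑ j ∈ Finset.Icc 1 M, ‖cut M c (p * j)‖ ^ 2 ≤
      ω * ∑ m ∈ Finset.Icc 1 M, ‖c m‖ ^ 2 := by
  refine (Finset.sum_le_sum fun p hp => cut_mult p (hW1 p hp)).trans ?_
  rw [Finset.sum_comm, Finset.mul_sum]
  refine Finset.sum_le_sum fun m hm => ?_
  rw [← Finset.sum_filter, Finset.sum_const, nsmul_eq_mul]
  by_cases h : c m = 0
  · rw [h]; simp
  · gcongr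
    exact hω m hm h

lemma RW_nonneg : 0 ≤ RW W b c M := Finset.sum_nonneg fun _ _ => by positivity

lemma GW_nonneg : 0 ≤ GW W b c M := Finset.sum_nonneg fun _ _ =>
  mul_nonneg (by positivity) (Finset.sum_nonneg fun _ _ => by positivity)

lemma cs_norm (s : Finset ℕ) (f g : ℕ → ℂ) :
    ‖∑ p ∈ s, f p * g p‖ ^ 2 ≤ (∑ p ∈ s, ‖f p‖ ^ 2) * ∑ p ∈ s, ‖g p‖ ^ 2 := by
  have h1 : ‖∑ p ∈ s, f p * g p‖ ≤ ∑ p ∈ s, ‖f p‖ * ‖g p‖ :=
    (norm_sum_le _ _).trans (Finset.sum_le_sum fun p _ => (norm_mul _ _).le)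
  calc ‖∑ p ∈ s, f p * g p‖ ^ 2 ≤ (∑ p ∈ s, ‖f p‖ * ‖g p‖) ^ 2 := by gcongr
    _ ≤ _ := Finset.sum_mul_sq_le_sq_mul_sq s _ _

open Classical in
lemma RW_le (ω : ℝ) (hW1 : ∀ p ∈ W, 1 ≤ p)
    (hω : ∀ m ∈ Finset.Icc 1 M, c m ≠ 0 → ((W.filter (fun p => p ∣ m)).card : ℝ) ≤ ω) :
    RW W b c M ≤ (∑ p ∈ W, ‖b p‖ ^ 2) * (ω * ∑ m ∈ Finset.Icc 1 M, ‖c m‖ ^ 2) := by
  have hQ : 0 ≤ ∑ p ∈ W, ‖b p‖ ^ 2 := Finset.sum_nonneg fun _ _ => by positivity
  calc RW W b c M ≤ ∑ j ∈ Finset.Icc 1 M, (∑ p ∈ W, ‖b p‖ ^ 2) *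
        ∑ p ∈ W, ‖cut M c (p * j)‖ ^ 2 := by
        unfold RW
        refine Finset.sum_le_sum fun j _ => ?_
        refine (cs_norm W _ _).trans (le_of_eq ?_)
        simp only [RCLike.norm_conj]
    _ = (∑ p ∈ W, ‖b p‖ ^ 2) * ∑ p ∈ W, ∑ j ∈ Finset.Icc 1 M, ‖cut M c (p * j)‖ ^ 2 := by
        rw [← Finset.mul_sum, Finset.sum_comm]
    _ ≤ _ := mul_le_mul_of_nonneg_left (cut_sum ω hW1 hω) hQ

open Classical in
lemma GW_le (ω β : ℝ) (hW1 : ∀ p ∈ W, 1 ≤ p) (hβ : ∀ p ∈ W, ‖b p‖ ^ 2 ≤ β) (hβ0 : 0 ≤ β)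
    (hω : ∀ m ∈ Finset.Icc 1 M, c m ≠ 0 → ((W.filter (fun p => p ∣ m)).card : ℝ) ≤ ω) :
    GW W b c M ≤ β * (ω * ∑ m ∈ Finset.Icc 1 M, ‖c m‖ ^ 2) := by
  calc GW W b c M ≤ ∑ p ∈ W, β * ∑ j ∈ Finset.Icc 1 M, ‖cut M c (p * j)‖ ^ 2 := by
        unfold GW
        refine Finset.sum_le_sum fun p hp => ?_
        exact mul_le_mul_of_nonneg_right (hβ p hp) (Finset.sum_nonneg fun _ _ => by positivity)
    _ = β * ∑ p ∈ W, ∑ j ∈ Finset.Icc 1 M, ‖cut M c (p * j)‖ ^ 2 := by rw [Finset.mul_sum]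
    _ ≤ _ := mul_le_mul_of_nonneg_left (cut_sum ω hW1 hω) hβ0

/-- the mean square of the product, for arbitrary coefficients -/
theorem prod_gen (hW : W ⊆ Finset.Icc 1 X) (T1 T2 : ℝ) (h : T1 ≤ T2) :
    |(∫ t in T1..T2, ‖(∑ p ∈ W, b p * (p : ℂ) ^ (-(t : ℂ) * I)) *
        (∑ m ∈ Finset.Icc 1 M, c m * (m : ℂ) ^ (-(t : ℂ) * I))‖ ^ 2) -
      (T2 - T1) * ∑ k ∈ Finset.Icc 1 (X * M), ‖ek W b c M k‖ ^ 2| ≤
      (8 * (X * M : ℕ) * (1 + Real.log (X * M : ℕ))) *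
        ∑ k ∈ Finset.Icc 1 (X * M), ‖ek W b c M k‖ ^ 2 := by
  have h1 := mean_two (ek W b c M) (X * M) T1 T2 h
  simp_rw [← prod_eq hW] at h1
  exact h1

end Pool.Agent.D0H26.WM
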