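import Pool.Agent.D0H26.WM.Main
import Pool.Agent.D0H26.WM.Gen

/-! The mean square of the zero sum against the square of an arbitrary Dirichlet polynomial. -/

open Complex Filter Topology Set MeasureTheory
open scoped ComplexConjugate

namespace Pool.Agent.D0H26.WM

open H370 H370.A2

lemma br_le_two (u : ℝ) (n : ℕ) : br u n ≤ 2 := by
  refine (br_le u n).trans ?_
  have : Real.exp (-(u - Real.log n) ^ 2 / 2) ≤ 1 := by
    apply Real.exp_le_one_iff.2
    nlinarith [sq_nonneg (u - Real.log n)]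
  linarith

lemma conj_bc (u : ℝ) (p : ℕ) : conj (bc u p) = bc u p := by
  unfold bc
  rw [Complex.conj_ofReal]

open Classical in
/-- the annihilation term with all primes -/
noncomputable def RA (u : ℝ) (M : ℕ) (c : ℕ → ℂ) : ℝ :=
  ∑ j ∈ Finset.Icc 1 M, ‖∑ p ∈ (Finset.Icc 1 M).filter Nat.Prime, bc u p * cut M c (p * j)‖ ^ 2

open Classical in
/-- the number of window primes which divide `m` -/
lemma card_div {W : Finset ℕ} {l L : ℝ} (hl : 0 < l) (hWp : ∀ p ∈ W, p.Prime)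
    (hWl : ∀ p ∈ W, l ≤ Real.log p) {m : ℕ} (hm : 1 ≤ m) (hmL : Real.log m ≤ L) :
    ((W.filter (fun p => p ∣ m)).card : ℝ) ≤ L / l := by
  rw [le_div_iff₀ hl]
  have h1 : ∏ p ∈ W.filter (fun p => p ∣ m), p ∣ m := by
    refine Finset.prod_primes_dvd m ?_ ?_
    · intro p hp
      exact (hWp p (Finset.mem_filter.1 hp).1).prime
    · intro p hp
      exact (Finset.mem_filter.1 hp).2
  have h2 : (∏ p ∈ W.filter (fun p => p ∣ m), p) ≤ m := Nat.le_of_dvd (by omega) h1
  have h3 : ∑ p ∈ W.filter (fun p => p ∣ m), Real.log (p : ℝ) =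
      Real.log ((∏ p ∈ W.filter (fun p => p ∣ m), p : ℕ) : ℝ) := by
    rw [Nat.cast_prod, Real.log_prod]
    intro p hp
    have := (hWp p (Finset.mem_filter.1 hp).1).pos
    positivity
  have h4 : Real.log ((∏ p ∈ W.filter (fun p => p ∣ m), p : ℕ) : ℝ) ≤ Real.log m := by
    apply Real.log_le_log
    · have : 0 < ∏ p ∈ W.filter (fun p => p ∣ m), p := Finset.prod_pos fun p hp =>
        (hWp p (Finset.mem_filter.1 hp).1).pos
      exact_mod_cast this
    · exact_mod_cast h2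
  calc ((W.filter (fun p => p ∣ m)).card : ℝ) * l = ∑ p ∈ W.filter (fun p => p ∣ m), l := by
        rw [Finset.sum_const, nsmul_eq_mul]
    _ ≤ ∑ p ∈ W.filter (fun p => p ∣ m), Real.log (p : ℝ) :=
        Finset.sum_le_sum fun p hp => hWl p (Finset.mem_filter.1 hp).1
    _ ≤ L := by rw [h3]; exact h4.trans hmL

open Classical in
/-- primes outside of the window contribute little to the annihilation term -/
lemma RA_close (u D η : ℝ) (hD : 0 ≤ D) (hη : 0 < η) (M : ℕ) (c : ℕ → ℂ) :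
    |RA u M c - RW (Wn u D) (bc u) c M| ≤ η * RW (Wn u D) (bc u) c M +
      (1 + 1 / η) * (4 * (M : ℝ) ^ 2 * Real.exp (-D ^ 2) * SS M c) := by
  set PM := (Finset.Icc 1 M).filter Nat.Prime with hPM
  set W := Wn u D with hW
  have hout : ∀ p ∈ PM \ W, br u p ≤ 2 * Real.exp (-D ^ 2 / 2) := by
    intro p hp
    rw [Finset.mem_sdiff, hPM, Finset.mem_filter, Finset.mem_Icc] at hp
    apply br_out hD
    by_contra hc
    rw [not_lt] at hc
    apply hp.2
    rw [hW]
    unfold Wn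
    rw [Finset.mem_filter, Finset.mem_Icc]
    refine ⟨⟨hp.1.1.1, ?_⟩, hp.1.2, hc⟩
    by_contra hX
    rw [not_le] at hX
    have h1 : Real.log (Xn u D) < Real.log p := by
      apply Real.log_lt_log
      · exact_mod_cast Xn_pos u D
      · exact_mod_cast hX
    have h2 := log_Xn u D
    have h3 := (abs_le.1 hc).2
    linarith
  set x : ℕ → ℂ := fun j => ∑ p ∈ PM, bc u p * cut M c (p * j) with hx
  set y : ℕ → ℂ := fun j => ∑ p ∈ W, conj (bc u p) * cut M c (p * j) with hy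
  have hdiff : ∀ j ∈ Finset.Icc 1 M, x j - y j = ∑ p ∈ PM \ W, bc u p * cut M c (p * j) := by
    intro j hj
    rw [Finset.mem_Icc] at hj
    have h1 : y j = ∑ p ∈ PM ∩ W, bc u p * cut M c (p * j) := by
      simp only [hy, conj_bc]
      symm
      apply Finset.sum_subset Finset.inter_subset_right
      intro p hpW hp
      have hpp : p.Prime := by
        rw [hW] at hpW
        unfold Wn at hpW
        exact (Finset.mem_filter.1 hpW).2.1
      have h2 : p ∉ PM := fun h => hp (Finset.mem_inter.2 ⟨h, hpW⟩)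
      have h3 : M < p := by
        by_contra hc
        apply h2
        rw [hPM, Finset.mem_filter, Finset.mem_Icc]
        exact ⟨⟨hpp.pos, by omega⟩, hpp⟩
      have h4 : p * j ∉ Finset.Icc 1 M := by
        rw [Finset.mem_Icc]
        intro h
        have : p ≤ p * j := Nat.le_mul_of_pos_right p (by omega)
        omega
      unfold cut
      rw [if_neg h4, mul_zero]
    rw [h1]
    simp only [hx]
    rw [← Finset.sum_sdiff (Finset.inter_subset_left (s₁ := PM) (s₂ := W)),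
      Finset.sdiff_inter_self_left]
    ring
  have hpt : ∀ j ∈ Finset.Icc 1 M, |‖x j‖ ^ 2 - ‖y j‖ ^ 2| ≤ η * ‖y j‖ ^ 2 +
      (1 + 1 / η) * ‖∑ p ∈ PM \ W, bc u p * cut M c (p * j)‖ ^ 2 := by
    intro j hj
    exact TH803TW.sq_diff hη (by rw [hdiff j hj])
  have h1 : RA u M c - RW W (bc u) c M = ∑ j ∈ Finset.Icc 1 M, (‖x j‖ ^ 2 - ‖y j‖ ^ 2) := by
    rw [Finset.sum_sub_distrib]
    rfl
  have h2 : RW W (bc u) c M = ∑ j ∈ Finset.Icc 1 M, ‖y j‖ ^ 2 := rfl
  have hS0 := SS_nonneg M c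
  have hsum : ∑ p ∈ PM \ W, ‖bc u p‖ ^ 2 ≤ 4 * M * Real.exp (-D ^ 2) := by
    have h3 : ∀ p ∈ PM \ W, ‖bc u p‖ ^ 2 ≤ 4 * Real.exp (-D ^ 2) := by
      intro p hp
      rw [bc_norm]
      have h4 := br_nonneg u p
      calc br u p ^ 2 ≤ (2 * Real.exp (-D ^ 2 / 2)) ^ 2 := by
            have := hout p hp
            gcongr
        _ = 4 * Real.exp (-D ^ 2) := by
            rw [mul_pow, ← Real.exp_nat_mul]
            push_cast
            ring_nf
    refine (Finset.sum_le_card_nsmul _ _ _ h3).trans ?_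
    rw [nsmul_eq_mul]
    have h4 : (PM \ W).card ≤ M := by
      calc (PM \ W).card ≤ PM.card := Finset.card_le_card Finset.sdiff_subset
        _ ≤ (Finset.Icc 1 M).card := Finset.card_filter_le _ _
        _ = M := by rw [Nat.card_Icc]; omega
    have h5 : ((PM \ W).card : ℝ) ≤ M := by exact_mod_cast h4
    calc ((PM \ W).card : ℝ) * (4 * Real.exp (-D ^ 2)) ≤ M * (4 * Real.exp (-D ^ 2)) := by gcongr
      _ = _ := by ring
  have hcut : ∑ p ∈ PM \ W, ∑ j ∈ Finset.Icc 1 M, ‖cut M c (p * j)‖ ^ 2 ≤ (M : ℝ) * SS M c := by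
    refine cut_sum (M : ℝ) ?_ ?_
    · intro p hp
      rw [Finset.mem_sdiff, hPM, Finset.mem_filter] at hp
      exact hp.1.2.pos
    · intro m _ _
      have h4 : ((PM \ W).filter (fun p => p ∣ m)).card ≤ M := by
        calc ((PM \ W).filter (fun p => p ∣ m)).card ≤ (PM \ W).card :=
              Finset.card_filter_le _ _
          _ ≤ PM.card := Finset.card_le_card Finset.sdiff_subset
          _ ≤ (Finset.Icc 1 M).card := Finset.card_filter_le _ _
          _ = M := by rw [Nat.card_Icc]; omega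
      exact_mod_cast h4
  have h3 : ∑ j ∈ Finset.Icc 1 M, ‖∑ p ∈ PM \ W, bc u p * cut M c (p * j)‖ ^ 2 ≤
      4 * (M : ℝ) ^ 2 * Real.exp (-D ^ 2) * SS M c := by
    calc _ ≤ ∑ j ∈ Finset.Icc 1 M, (∑ p ∈ PM \ W, ‖bc u p‖ ^ 2) *
          ∑ p ∈ PM \ W, ‖cut M c (p * j)‖ ^ 2 := Finset.sum_le_sum fun j _ => cs_norm _ _ _
      _ = (∑ p ∈ PM \ W, ‖bc u p‖ ^ 2) *
          ∑ p ∈ PM \ W, ∑ j ∈ Finset.Icc 1 M, ‖cut M c (p * j)‖ ^ 2 := by
          rw [← Finset.mul_sum, Finset.sum_comm]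
      _ ≤ (4 * M * Real.exp (-D ^ 2)) * (M * SS M c) := by
          apply mul_le_mul hsum hcut
          · exact Finset.sum_nonneg fun _ _ => Finset.sum_nonneg fun _ _ => by positivity
          · positivity
      _ = _ := by ring
  rw [h1]
  refine (Finset.abs_sum_le_sum_abs _ _).trans ((Finset.sum_le_sum hpt).trans ?_)
  rw [Finset.sum_add_distrib, ← Finset.mul_sum, ← Finset.mul_sum, ← h2]
  have h4 : 0 ≤ 1 + 1 / η := by positivity
  have h5 := mul_le_mul_of_nonneg_left h3 h4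
  linarith

/-- **the mean square of the zero sum with the weight `|D|²`** -/
theorem main_g (ε : ℝ) (hε : 0 < ε) : ∃ T0 : ℝ, 10 ≤ T0 ∧ ∀ T : ℝ, T0 ≤ T → ∀ A B : ℝ,
    T + 1 ≤ A → B ≤ 2 * T - 1 → ∀ u : ℝ, ε * Real.log T ≤ u → ∀ (M : ℕ) (c : ℕ → ℂ), 1 ≤ M →
    ∀ T1 T2 : ℝ, A + Real.log T ≤ T1 → T2 ≤ B - Real.log T →
      (M : ℝ) * Real.exp u * T ^ ε ≤ T2 - T1 →
      |(∫ t in T1..T2, ‖AA riemannZeta A B u t‖ ^ 2 * ‖DP M c t‖ ^ 2) -
        (T2 - T1) / (2 * Real.pi) * (Real.sqrt Real.pi * u * SS M c + RA u M c)| ≤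
          ε * Real.log T * ((T2 - T1) * SS M c) ∧
      |(∫ t in T1..T2, ‖DP M c t‖ ^ 2) - (T2 - T1) * SS M c| ≤ ε * ((T2 - T1) * SS M c) ∧
      RA u M c ≤ (8 / ε + 1) * Real.log T * SS M c := by
  classical
  set κ : ℝ := ε / 4 with hκ
  have hκ0 : 0 < κ := by positivity
  set ω : ℝ := 2 / ε with hω
  have hω0 : 0 < ω := by positivity
  set B1 : ℝ := 3 * (1 + ω) with hB1
  have hB10 : 1 ≤ B1 := by rw [hB1]; linarith
  set η : ℝ := min (ε / (2 * B1)) (1 / 8) with hη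
  have hη0 : 0 < η := by positivity
  have hηε : η * B1 ≤ ε / 2 := by
    have h1 : η ≤ ε / (2 * B1) := min_le_left _ _
    rw [le_div_iff₀ (by positivity)] at h1
    linarith
  have hη8 : η ≤ 1 / 8 := min_le_right _ _
  have hη1 : η ≤ 1 := by linarith
  have hηε1 : η ≤ ε := by nlinarith
  obtain ⟨C, T1, hC, hT1, hAC⟩ := AA_close κ hκ0
  obtain ⟨T2, hT2, hQ⟩ := Q_asym κ η hκ0 hη0
  set C3 : ℝ := 2 * (1 + 1 / η) * C ^ 2 + 4 * ω + (1 + 1 / η) with hC3
  have hC30 : 0 ≤ C3 := by positivity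
  have ev1 := TH803TW.ev_log_pow η 32 (ε / 2) 1 hη0 (by norm_num) (by positivity)
  have ev2 : ∀ᶠ T : ℝ in atTop, C3 / (ε / 2) ≤ Real.log T :=
    Real.tendsto_log_atTop.eventually_ge_atTop _
  have ev3 := TH803TW.ev_exp 4 2 (κ ^ 2) (by positivity)
  have ev4 : ∀ᶠ T : ℝ in atTop, 1 + 1 / η ≤ Real.log T :=
    Real.tendsto_log_atTop.eventually_ge_atTop _
  obtain ⟨T3, hT3⟩ := (((ev1.and ev2).and ev3).and ev4).exists_forall_of_atTop
  refine ⟨max T1 (max T2 T3), hT1.trans (le_max_left _ _),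
    fun T hT A B hA hB u hu M c hM X1 X2 hX1 hX2 hX => ?_⟩
  have hTT1 : T1 ≤ T := (le_max_left _ _).trans hT
  have hTT2 : T2 ≤ T := ((le_max_left _ _).trans (le_max_right _ _)).trans hT
  obtain ⟨⟨⟨e1, e2⟩, e3⟩, e4⟩ := hT3 T (((le_max_right _ _).trans (le_max_right _ _)).trans hT)
  have hT10 : 10 ≤ T := hT1.trans hTT1
  have hTpos : 0 < T := by linarith
  set L := Real.log T with hL
  have hL0 : 0 < L := Real.log_pos (by linarith)
  have hM1 : (1 : ℝ) ≤ M := by exact_mod_cast hM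
  have hu0 : 0 ≤ u := (by positivity : 0 ≤ ε * L).trans hu
  have heu : 1 ≤ Real.exp u := Real.one_le_exp hu0
  have hTε : 1 ≤ T ^ ε := Real.one_le_rpow (by linarith) hε.le
  set H : ℝ := X2 - X1 with hH
  have hHT : H ≤ T := by rw [hH]; linarith
  have hMe : (M : ℝ) ≤ M * Real.exp u := le_mul_of_one_le_right (by positivity) heu
  have hMH : (M : ℝ) * Real.exp u ≤ H := by
    refine le_trans ?_ hX
    exact le_mul_of_one_le_right (by positivity) hTε
  have hH1 : 1 ≤ H := by linarith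
  have hMT : (M : ℝ) ≤ T := by linarith
  have hX12 : X1 ≤ X2 := by linarith
  have huL : u ≤ L := by
    rw [hL, Real.le_log_iff_exp_le hTpos]
    calc Real.exp u ≤ M * Real.exp u := le_mul_of_one_le_left (by positivity) hM1
      _ ≤ T := hMH.trans hHT
  have hκL : κ * L ≤ ε * L := by rw [hκ]; nlinarith
  have hD0 : 0 ≤ κ * L := by positivity
  -- the polynomials
  set W : Finset ℕ := Wn u (κ * L) with hW
  have hWI : W ⊆ Finset.Icc 1 (Xn u (κ * L)) := by
    rw [hW]; unfold Wn; exact Finset.filter_subset _ _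
  have hWp : ∀ p ∈ W, p.Prime ∧ |Real.log p - u| ≤ κ * L := by
    intro p hp
    rw [hW] at hp
    unfold Wn at hp
    exact (Finset.mem_filter.1 hp).2
  have hW1 : ∀ p ∈ W, 1 ≤ p := fun p hp => (hWp p hp).1.pos
  have hωb : ∀ m ∈ Finset.Icc 1 M, c m ≠ 0 → ((W.filter (fun p => p ∣ m)).card : ℝ) ≤ ω := by
    intro m hm _
    rw [Finset.mem_Icc] at hm
    have hm0 : (0 : ℝ) < m := by exact_mod_cast hm.1
    have h1 := card_div (W := W) (l := ε / 2 * L) (L := L) (by positivity)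
      (fun p hp => (hWp p hp).1) (fun p hp => by
        have := (abs_le.1 (hWp p hp).2).1
        rw [hκ] at this
        nlinarith) hm.1 (by
        rw [hL]
        apply Real.log_le_log hm0
        have : (m : ℝ) ≤ M := by exact_mod_cast hm.2
        linarith)
    refine h1.trans (le_of_eq ?_)
    rw [hω]
    field_simp
  set P1 : ℝ → ℂ := fun t => ∑ p ∈ W, bc u p * (p : ℂ) ^ (-(t : ℂ) * I) with hP1
  have hP1c : Continuous P1 := poly_cont W (bc u) fun n hn => (Finset.mem_Icc.1 (hWI hn)).1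
  have hDc := DP_cont M c
  have hZc := AA_cont good_zeta (U2 := B) (show 1 ≤ A by linarith) u
  set S := SS M c with hS
  have hS0 : 0 ≤ S := SS_nonneg M c
  set Q := ∑ p ∈ W, br u p ^ 2 with hQdef
  have hQ0 : 0 ≤ Q := Finset.sum_nonneg fun _ _ => by positivity
  have hQ1 : ∑ p ∈ W, ‖bc u p‖ ^ 2 = Q := by
    rw [hQdef]
    exact Finset.sum_congr rfl fun p _ => by rw [bc_norm]
  have hQa := hQ T hTT2 u (hκL.trans hu) huL
  rw [← hL, ← hW, ← hQdef] at hQa
  -- the exact square sum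
  set E := ∑ k ∈ Finset.Icc 1 (Xn u (κ * L) * M), ‖ek W (bc u) c M k‖ ^ 2 with hE
  have hE0 : 0 ≤ E := Finset.sum_nonneg fun _ _ => by positivity
  set R := RW W (bc u) c M with hR
  have hR0 : 0 ≤ R := RW_nonneg
  set G := GW W (bc u) c M with hG
  have hG0 : 0 ≤ G := GW_nonneg
  have hEx : E + G = Q * S + R := by
    have := ek_exact (b := bc u) (c := c) (M := M) hWI (fun p hp => (hWp p hp).1)
    rw [hQ1] at this
    exact this
  have hRle : R ≤ Q * (ω * S) := by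
    have := RW_le (b := bc u) (c := c) (M := M) ω hW1 hωb
    rw [hQ1] at this
    exact this
  have hGle : G ≤ 4 * (ω * S) := by
    refine GW_le (b := bc u) (c := c) (M := M) ω 4 hW1 ?_ (by norm_num) hωb
    intro p _
    rw [bc_norm]
    have h1 := br_nonneg u p
    have h2 := br_le_two u p
    nlinarith
  set RR := RA u M c with hRR
  have hRRc : |RR - R| ≤ η * R + (1 + 1 / η) * S := by
    have h1 := RA_close u (κ * L) η hD0 hη0 M c
    rw [← hW, ← hR, ← hRR, ← hS] at h1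
    refine h1.trans ?_
    have h2 : 4 * (M : ℝ) ^ 2 * Real.exp (-(κ * L) ^ 2) ≤ 1 := by
      refine le_trans ?_ e3
      have h3 : (M : ℝ) ^ 2 ≤ Real.exp (2 * L) := by
        have : Real.exp (2 * L) = T ^ 2 := by
          rw [mul_comm, Real.exp_mul, hL, Real.exp_log hTpos]; norm_cast
        rw [this]
        gcongr
      calc 4 * (M : ℝ) ^ 2 * Real.exp (-(κ * L) ^ 2) ≤
          4 * Real.exp (2 * L) * Real.exp (-(κ * L) ^ 2) := by gcongr
        _ = 4 * Real.exp (2 * L - κ ^ 2 * L ^ 2) := by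
            rw [mul_assoc, ← Real.exp_add]; congr 2; ring
    have h3 : 4 * (M : ℝ) ^ 2 * Real.exp (-(κ * L) ^ 2) * S ≤ S := mul_le_of_le_one_left hS0 h2
    gcongr
  -- sizes
  have hTpow : T ^ (ε / 2) * T ^ κ * T ^ κ = T ^ ε := by
    rw [← Real.rpow_add hTpos, ← Real.rpow_add hTpos]
    congr 1
    rw [hκ]; ring
  have hTκ : T ^ κ = Real.exp (κ * L) := by
    rw [Real.rpow_def_of_pos hTpos, mul_comm]
  have hTκ1 : 1 ≤ T ^ κ := Real.one_le_rpow (by linarith) hκ0.le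
  have hTe2 : 0 < T ^ (ε / 2) := Real.rpow_pos_of_pos hTpos _
  have hX0 : (0 : ℝ) < Xn u (κ * L) := by exact_mod_cast Xn_pos _ _
  have hXle : (Xn u (κ * L) : ℝ) ≤ 2 * (Real.exp u * T ^ κ) := by
    have := Xn_le (u := u) (D := κ * L) (by positivity)
    rwa [Real.exp_add, ← hTκ] at this
  have hK1 : ((Xn u (κ * L) * M : ℕ) : ℝ) * T ^ (ε / 2) ≤ 2 * H := by
    push_cast
    calc (Xn u (κ * L) : ℝ) * M * T ^ (ε / 2) ≤ (2 * (Real.exp u * T ^ κ)) * M * T ^ (ε / 2) := by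
          gcongr
      _ ≤ (2 * (Real.exp u * T ^ κ)) * M * T ^ (ε / 2) * T ^ κ :=
          le_mul_of_one_le_right (by positivity) hTκ1
      _ = 2 * (M * Real.exp u * (T ^ (ε / 2) * T ^ κ * T ^ κ)) := by ring
      _ ≤ 2 * H := by rw [hTpow]; linarith
  have herr : ∀ K : ℕ, 1 ≤ K → (K : ℝ) * T ^ (ε / 2) ≤ 2 * H →
      8 * (K : ℝ) * (1 + Real.log K) ≤ η * H := by
    intro K hK1 hK2
    have hK0 : (1 : ℝ) ≤ K := by exact_mod_cast hK1
    have hTe1 : 1 ≤ T ^ (ε / 2) := Real.one_le_rpow (by linarith) (by positivity)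
    have hKT : (K : ℝ) ≤ 2 * T := by
      have : (K : ℝ) ≤ K * T ^ (ε / 2) := le_mul_of_one_le_right (by positivity) hTe1
      linarith
    have hlogK : Real.log K ≤ 1 + L := by
      have h1 : Real.log K ≤ Real.log (2 * T) := Real.log_le_log (by linarith) hKT
      rw [Real.log_mul (by norm_num) hTpos.ne'] at h1
      have h2 : Real.log 2 ≤ 1 := by
        have := Real.log_two_lt_d9
        linarith
      linarith
    rw [pow_one] at e1
    have hL1 : 1 + Real.log K ≤ 2 * (1 + L) := by linarith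
    have h3 : 8 * (1 + Real.log K) ≤ η / 2 * T ^ (ε / 2) := by linarith
    calc 8 * (K : ℝ) * (1 + Real.log K) = K * (8 * (1 + Real.log K)) := by ring
      _ ≤ K * (η / 2 * T ^ (ε / 2)) := by gcongr
      _ = η / 2 * (K * T ^ (ε / 2)) := by ring
      _ ≤ η / 2 * (2 * H) := by gcongr
      _ = η * H := by ring
  -- mean squares
  have hIP : |(∫ t in X1..X2, ‖P1 t * DP M c t‖ ^ 2) - H * E| ≤ η * (H * E) := by
    have h1 := prod_gen (b := bc u) (c := c) (M := M) hWI X1 X2 hX12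
    refine h1.trans ?_
    have h2 := herr (Xn u (κ * L) * M) (Nat.mul_pos (Xn_pos _ _) hM) hK1
    calc _ ≤ (η * H) * E := mul_le_mul_of_nonneg_right h2 hE0
      _ = _ := by ring
  have hID : |(∫ t in X1..X2, ‖DP M c t‖ ^ 2) - H * S| ≤ η * (H * S) := by
    have h1 := mean_two c M X1 X2 hX12
    refine h1.trans ?_
    have h2 : (M : ℝ) * T ^ (ε / 2) ≤ 2 * H := by
      refine le_trans ?_ hK1
      push_cast
      have : (1 : ℝ) ≤ Xn u (κ * L) := by exact_mod_cast Xn_pos _ _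
      have h3 : (M : ℝ) ≤ Xn u (κ * L) * M := le_mul_of_one_le_left (by positivity) this
      gcongr
    calc _ ≤ (η * H) * S := mul_le_mul_of_nonneg_right (herr M hM h2) hS0
      _ = _ := by ring
  have hHS : 0 ≤ H * S := by positivity
  have hsp : Real.sqrt Real.pi ≤ 2 := by
    rw [show (2 : ℝ) = Real.sqrt 4 by
      rw [show (4 : ℝ) = 2 ^ 2 by norm_num, Real.sqrt_sq (by norm_num)]]
    exact Real.sqrt_le_sqrt (by linarith [Real.pi_lt_four])
  have hQ3 : Q ≤ 3 * L := by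
    have h1 := (abs_le.1 hQa).2
    have h2 : Real.sqrt Real.pi * u ≤ 2 * L := by gcongr
    have h3 : η * L ≤ 1 * L := by gcongr
    linarith
  have hRR3 : R ≤ 3 * ω * L * S := by
    calc R ≤ Q * (ω * S) := hRle
      _ ≤ 3 * L * (ω * S) := by gcongr
      _ = _ := by ring
  refine ⟨?_, hID.trans (by gcongr), ?_⟩
  swap
  · have h1 := (abs_le.1 hRRc).2
    have h2 : η * R ≤ 1 / 8 * (3 * ω * L * S) := by gcongr
    have h3 : (1 + 1 / η) * S ≤ L * S := by gcongr
    have h4 : (8 / ε + 1) * L * S = 4 * ω * L * S + L * S := by rw [hω]; ring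
    rw [h4]
    have h5 : 0 ≤ ω * L * S := by positivity
    linarith
  -- comparison
  set q : ℝ := 1 / (2 * Real.pi) with hq
  have hq0 : 0 < q := by positivity
  have hq5 : q ≤ 1 / 5 := by
    rw [hq]
    apply one_div_le_one_div_of_le (by norm_num)
    linarith [Real.pi_gt_three]
  have hpt : ∀ t ∈ Set.Icc X1 X2, |‖AA riemannZeta A B u t‖ ^ 2 * ‖DP M c t‖ ^ 2 -
      q * ‖P1 t * DP M c t‖ ^ 2| ≤
      η * q * ‖P1 t * DP M c t‖ ^ 2 + (1 + 1 / η) * C ^ 2 * ‖DP M c t‖ ^ 2 := by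
    intro t ht
    have h1 := hAC T hTT1 A B hA hB u t (hκL.trans hu) huL (by linarith [ht.1])
      (by linarith [ht.2])
    have h2 := TH803TW.sq_diff hη0 h1
    have h3 : ‖(-(1 / Real.sqrt (2 * Real.pi) : ℝ) : ℂ) * (cexp (((t * u : ℝ) : ℂ) * I) *
          ∑ p ∈ Wn u (κ * Real.log T), bc u p * (p : ℂ) ^ (-(t : ℂ) * I))‖ ^ 2 =
        q * ‖P1 t‖ ^ 2 := by
      rw [norm_mul, norm_mul, Complex.norm_exp_ofReal_mul_I, one_mul, mul_pow, norm_neg,
        Complex.norm_real, Real.norm_of_nonneg (by positivity), div_pow, one_pow,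
        Real.sq_sqrt (by positivity)]
    rw [h3] at h2
    have hd : 0 ≤ ‖DP M c t‖ ^ 2 := by positivity
    have h4 : ‖AA riemannZeta A B u t‖ ^ 2 * ‖DP M c t‖ ^ 2 - q * ‖P1 t * DP M c t‖ ^ 2 =
        (‖AA riemannZeta A B u t‖ ^ 2 - q * ‖P1 t‖ ^ 2) * ‖DP M c t‖ ^ 2 := by
      rw [norm_mul, mul_pow]; ring
    rw [h4, abs_mul, abs_of_nonneg hd, norm_mul, mul_pow]
    calc |‖AA riemannZeta A B u t‖ ^ 2 - q * ‖P1 t‖ ^ 2| * ‖DP M c t‖ ^ 2 ≤
        (η * (q * ‖P1 t‖ ^ 2) + (1 + 1 / η) * C ^ 2) * ‖DP M c t‖ ^ 2 := by gcongr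
      _ = _ := by ring
  have c1 : Continuous fun t : ℝ => ‖AA riemannZeta A B u t‖ ^ 2 * ‖DP M c t‖ ^ 2 :=
    (hZc.norm.pow 2).mul (hDc.norm.pow 2)
  have c2 : Continuous fun t : ℝ => ‖P1 t * DP M c t‖ ^ 2 := (hP1c.mul hDc).norm.pow 2
  have c3 : Continuous fun t : ℝ => ‖DP M c t‖ ^ 2 := hDc.norm.pow 2
  have c4 : Continuous fun t : ℝ => q * ‖P1 t * DP M c t‖ ^ 2 := continuous_const.mul c2
  have c5 : Continuous fun t : ℝ => η * q * ‖P1 t * DP M c t‖ ^ 2 := continuous_const.mul c2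
  have c6 : Continuous fun t : ℝ => (1 + 1 / η) * C ^ 2 * ‖DP M c t‖ ^ 2 :=
    continuous_const.mul c3
  set IZ := ∫ t in X1..X2, ‖AA riemannZeta A B u t‖ ^ 2 * ‖DP M c t‖ ^ 2 with hIZ
  set IP := ∫ t in X1..X2, ‖P1 t * DP M c t‖ ^ 2 with hIPd
  set ID := ∫ t in X1..X2, ‖DP M c t‖ ^ 2 with hIDd
  have hcmp : |IZ - q * IP| ≤ η * q * IP + (1 + 1 / η) * C ^ 2 * ID := by
    have h1 : IZ - q * IP = ∫ t in X1..X2, (‖AA riemannZeta A B u t‖ ^ 2 * ‖DP M c t‖ ^ 2 -
      q * ‖P1 t * DP M c t‖ ^ 2) := by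
      rw [intervalIntegral.integral_sub (c1.intervalIntegrable _ _)
        (c4.intervalIntegrable _ _), intervalIntegral.integral_const_mul]
    have h2 : η * q * IP + (1 + 1 / η) * C ^ 2 * ID = ∫ t in X1..X2,
        (η * q * ‖P1 t * DP M c t‖ ^ 2 + (1 + 1 / η) * C ^ 2 * ‖DP M c t‖ ^ 2) := by
      rw [intervalIntegral.integral_add (c5.intervalIntegrable _ _)
        (c6.intervalIntegrable _ _), intervalIntegral.integral_const_mul,
        intervalIntegral.integral_const_mul]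
    rw [h1, h2]
    refine (intervalIntegral.abs_integral_le_integral_abs hX12).trans ?_
    refine intervalIntegral.integral_mono_on hX12 ?_ ?_ hpt
    · exact ((c1.sub c4).abs).intervalIntegrable _ _
    · exact (c5.add c6).intervalIntegrable _ _
  -- final computation
  have hEle : E ≤ B1 * (L * S) := by
    have h1 : Q * S ≤ 3 * L * S := by gcongr
    calc E ≤ Q * S + R := by linarith
      _ ≤ 3 * L * S + 3 * ω * L * S := add_le_add h1 hRR3
      _ = B1 * (L * S) := by rw [hB1]; ring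
  have hRle2 : R ≤ B1 * (L * S) := by
    have h5 : 0 ≤ L * S := by positivity
    calc R ≤ 3 * ω * L * S := hRR3
      _ ≤ B1 * (L * S) := by rw [hB1]; nlinarith
  have hIP2 : IP ≤ 2 * (H * E) := by
    have h1 := (abs_le.1 hIP).2
    have h2 : η * (H * E) ≤ 1 * (H * E) := by gcongr
    linarith
  have hID2 : ID ≤ 2 * (H * S) := by
    have h1 := (abs_le.1 hID).2
    have h2 : η * (H * S) ≤ 1 * (H * S) := by gcongr
    linarith
  have hmain : H / (2 * Real.pi) * (Real.sqrt Real.pi * u * S + RR) =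
      q * (H * (Real.sqrt Real.pi * u * S + RR)) := by
    rw [hq]; ring
  have hmid : |E - (Real.sqrt Real.pi * u * S + RR)| ≤
      4 * (ω * S) + η * L * S + (η * R + (1 + 1 / η) * S) := by
    have h1 : E - (Real.sqrt Real.pi * u * S + RR) =
        -G + (Q - Real.sqrt Real.pi * u) * S - (RR - R) := by linear_combination hEx
    rw [h1]
    refine (abs_sub _ _).trans (add_le_add ((abs_add_le _ _).trans (add_le_add ?_ ?_)) hRRc)
    · rw [abs_neg, abs_of_nonneg hG0]; exact hGle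
    · rw [abs_mul, abs_of_nonneg hS0]; gcongr
  have g1 : |IZ - H / (2 * Real.pi) * (Real.sqrt Real.pi * u * S + RR)| ≤ |IZ - q * IP| +
      q * |IP - H * E| + q * (H * |E - (Real.sqrt Real.pi * u * S + RR)|) := by
    rw [hmain]
    have h1 : IZ - q * (H * (Real.sqrt Real.pi * u * S + RR)) = (IZ - q * IP) +
        q * (IP - H * E) + q * (H * (E - (Real.sqrt Real.pi * u * S + RR))) := by ring
    rw [h1]
    refine (abs_add_le _ _).trans (add_le_add ((abs_add_le _ _).trans ?_) ?_)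
    · rw [abs_mul, abs_of_pos hq0]
    · rw [abs_mul, abs_of_pos hq0, abs_mul, abs_of_nonneg (by linarith : 0 ≤ H)]
  have hH0 : 0 ≤ H := by linarith
  have hηR : η * R ≤ η * (B1 * (L * S)) := by gcongr
  have g2 : q * |IP - H * E| ≤ q * (η * (H * (B1 * (L * S)))) := by
    gcongr
    exact hIP.trans (by gcongr)
  have g3 : q * (H * |E - (Real.sqrt Real.pi * u * S + RR)|) ≤
      q * (H * (4 * (ω * S) + η * L * S + (η * (B1 * (L * S)) + (1 + 1 / η) * S))) := by
    gcongr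
    exact hmid.trans (by gcongr)
  have g4 : η * q * IP ≤ η * q * (2 * (H * (B1 * (L * S)))) := by
    gcongr
    exact hIP2.trans (by gcongr)
  have g5 : (1 + 1 / η) * C ^ 2 * ID ≤ (1 + 1 / η) * C ^ 2 * (2 * (H * S)) := by gcongr
  have hLHS : 0 ≤ L * (H * S) := by positivity
  have g6 : q * (5 * (η * B1 * (L * (H * S)))) ≤ 1 / 5 * (5 * (ε / 2 * (L * (H * S)))) := by
    gcongr
  have g7 : q * (H * (4 * (ω * S) + (1 + 1 / η) * S)) ≤ 1 * (H * (4 * (ω * S) + (1 + 1 / η) * S)) := by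
    gcongr
    linarith
  have g8 : q * (η * (L * (H * S))) ≤ q * (η * B1 * (L * (H * S))) := by
    gcongr
    exact le_mul_of_one_le_right hη0.le hB10
  rw [div_le_iff₀ (by positivity)] at e2
  have g9 : C3 * (H * S) ≤ L * (ε / 2) * (H * S) := by gcongr
  calc _ ≤ _ := g1
    _ ≤ (η * q * (2 * (H * (B1 * (L * S)))) + (1 + 1 / η) * C ^ 2 * (2 * (H * S))) +
        q * (η * (H * (B1 * (L * S)))) +
        q * (H * (4 * (ω * S) + η * L * S + (η * (B1 * (L * S)) + (1 + 1 / η) * S))) := by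
        linarith [hcmp]
    _ = (q * (4 * (η * B1 * (L * (H * S)))) + q * (η * (L * (H * S)))) +
        2 * (1 + 1 / η) * C ^ 2 * (H * S) + q * (H * (4 * (ω * S) + (1 + 1 / η) * S)) := by ring
    _ ≤ q * (5 * (η * B1 * (L * (H * S)))) + 2 * (1 + 1 / η) * C ^ 2 * (H * S) +
        1 * (H * (4 * (ω * S) + (1 + 1 / η) * S)) := by linarith
    _ = q * (5 * (η * B1 * (L * (H * S)))) + C3 * (H * S) := by rw [hC3]; ring
    _ ≤ 1 / 5 * (5 * (ε / 2 * (L * (H * S)))) + L * (ε / 2) * (H * S) := add_le_add g6 g9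
    _ = ε * L * (H * S) := by ring

end Pool.Agent.D0H26.WM
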