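import Pool.Agent.D0H26.WM.Win
import Pool.Agent.TH803.TW.JTB
import Pool.Agent.TH803.TW.Par

/-! The mean square of the zero sum against the square of a Dirichlet polynomial. -/

open Complex Filter Topology Set MeasureTheory

namespace Pool.Agent.D0H26.WM

open H370 H370.A2

/-- the square sum of the window, asymptotically -/
theorem Q_asym (κ η : ℝ) (hκ : 0 < κ) (hη : 0 < η) : ∃ T0 : ℝ, 10 ≤ T0 ∧ ∀ T : ℝ, T0 ≤ T →
    ∀ u : ℝ, κ * Real.log T ≤ u → u ≤ Real.log T →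
      |∑ p ∈ Wn u (κ * Real.log T), br u p ^ 2 - Real.sqrt Real.pi * u| ≤ η * Real.log T := by
  obtain ⟨C1, hC1, h1⟩ := Q_close
  obtain ⟨K, hK, h2⟩ := lam_asym (η / 4) (by positivity)
  have m1 := mom_nonneg 1 1
  have m2 := mom_nonneg (1 / 2) 0
  have ev1 := TH803TW.ev_exp 8 (1 + κ) (κ ^ 2) (by positivity)
  have ev2 := TH803TW.ev_exp (mom (1 / 2) 0) 1 (κ ^ 2 / 2) (by positivity)
  have ev3 : ∀ᶠ T : ℝ in atTop, (C1 + 1 + η / 4 + K + mom 1 1 + 1) / (η / 2) ≤ Real.log T :=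
    Real.tendsto_log_atTop.eventually_ge_atTop _
  obtain ⟨T2, hT2⟩ := ((ev1.and ev2).and ev3).exists_forall_of_atTop
  refine ⟨max 10 T2, le_max_left _ _, fun T hT u hu1 hu2 => ?_⟩
  have hT10 : 10 ≤ T := (le_max_left _ _).trans hT
  obtain ⟨⟨e1, e2⟩, e3⟩ := hT2 T ((le_max_right _ _).trans hT)
  set L := Real.log T with hL
  have hL0 : 0 ≤ L := Real.log_nonneg (by linarith)
  have hD0 : 0 ≤ κ * L := by positivity
  have hu0 : 0 ≤ u := hD0.trans hu1
  have a1 := h1 u (κ * L) hu0 hD0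
  have a2 := h2 u (Xn u (κ * L)) hu0 (Xn_pos _ _)
  have a3 := int_close u (Real.log (Xn u (κ * L))) (κ * L) hD0 hu1 (by
    have := log_Xn u (κ * L)
    linarith)
  have b1 : 8 * Real.exp (u + κ * L) * Real.exp (-(κ * L) ^ 2) ≤ 1 := by
    refine le_trans ?_ e1
    rw [mul_assoc, ← Real.exp_add]
    gcongr
    nlinarith
  have b2 : u * (Real.exp (-((κ * L) ^ 2 / 2)) * mom (1 / 2) 0) ≤ 1 := by
    refine le_trans ?_ e2
    have h5 : u ≤ Real.exp L := hu2.trans (by linarith [Real.add_one_le_exp L])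
    calc u * (Real.exp (-((κ * L) ^ 2 / 2)) * mom (1 / 2) 0) ≤
        Real.exp L * (Real.exp (-((κ * L) ^ 2 / 2)) * mom (1 / 2) 0) := by gcongr
      _ = mom (1 / 2) 0 * (Real.exp L * Real.exp (-((κ * L) ^ 2 / 2))) := by ring
      _ = mom (1 / 2) 0 * Real.exp (1 * L - κ ^ 2 / 2 * L ^ 2) := by
          rw [← Real.exp_add]; congr 2; ring
  rw [div_le_iff₀ (by positivity)] at e3
  have b3 : η / 4 * (1 + u) ≤ η / 4 + η / 4 * L := by nlinarith
  have t1 := abs_le.1 a1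
  have t2 := abs_le.1 a2
  have t3 := abs_le.1 a3
  rw [abs_le]
  constructor <;> nlinarith [t1.1, t1.2, t2.1, t2.2, t3.1, t3.2]

/-- the zero sum is the prime polynomial over the window, up to a bounded error -/
theorem AA_close (κ : ℝ) (hκ : 0 < κ) : ∃ C T0 : ℝ, 0 < C ∧ 10 ≤ T0 ∧ ∀ T : ℝ, T0 ≤ T →
    ∀ A B : ℝ, T + 1 ≤ A → B ≤ 2 * T - 1 →
      ∀ u t : ℝ, κ * Real.log T ≤ u → u ≤ Real.log T → A + Real.log T ≤ t →
        t ≤ B - Real.log T →
        ‖AA riemannZeta A B u t - (-(1 / Real.sqrt (2 * Real.pi) : ℝ) *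
          (cexp (((t * u : ℝ) : ℂ) * I) *
          ∑ p ∈ Wn u (κ * Real.log T), bc u p * (p : ℂ) ^ (-(t : ℂ) * I)))‖ ≤ C := by
  obtain ⟨C, T0, hC, hT0, hEF⟩ := ef_sub2 good_zeta (a := lamC) (fun n => (lamC_norm n).le)
    (fun s hs _ => ld_zeta s hs)
  obtain ⟨C1, hC1, hP⟩ := PP_close
  have ev1 := TH803TW.ev_exp 1 1 (κ ^ 2 / 2) (by positivity)
  have ev2 := TH803TW.ev_exp (C1 * Real.exp 4) 2 (κ ^ 2 / 4) (by positivity)
  have ev3 := TH803TW.ev_exp 4 (1 + κ) (κ ^ 2 / 2) (by positivity)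
  obtain ⟨T2, hT2⟩ := ((ev1.and ev2).and ev3).exists_forall_of_atTop
  refine ⟨C + (1 + (C1 + 1 + 1)), max T0 T2, by positivity, hT0.trans (le_max_left _ _),
    fun T hT A B hA hB u t hu1 hu2 ht1 ht2 => ?_⟩
  obtain ⟨⟨e1, e2⟩, e3⟩ := hT2 T ((le_max_right _ _).trans hT)
  have hTT0 : T0 ≤ T := (le_max_left _ _).trans hT
  have hT10 : 10 ≤ T := hT0.trans hTT0
  set L := Real.log T with hL
  have hL0 : 0 ≤ L := Real.log_nonneg (by linarith)
  have hD0 : 0 ≤ κ * L := by positivity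
  have hu0 : 0 ≤ u := hD0.trans hu1
  have a1 := hEF T hTT0 A B hA hB u t hu0 hu2 ht1 ht2
  have a2 := hP u (κ * L) t hu0 hD0
  rw [← hL] at a1
  set P1 : ℂ := cexp (((t * u : ℝ) : ℂ) * I) *
          ∑ p ∈ Wn u (κ * L), bc u p * (p : ℂ) ^ (-(t : ℂ) * I) with hP1
  have hq : Real.sqrt (2 * Real.pi) ≠ 0 := by positivity
  have hq1 : 1 / Real.sqrt (2 * Real.pi) ≤ 1 := by
    rw [div_le_one (by positivity), Real.one_le_sqrt]
    linarith [Real.pi_gt_three]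
  have hq0 : 0 ≤ 1 / Real.sqrt (2 * Real.pi) := by positivity
  have b1 : ‖(Real.log T : ℂ) * cexp (I * u * t) * Real.exp (-u ^ 2 / 2)‖ ≤ 1 := by
    have h1 : ‖cexp (I * u * t)‖ = 1 := by
      have : I * (u : ℂ) * t = ((u * t : ℝ) : ℂ) * I := by push_cast; ring
      rw [this, Complex.norm_exp_ofReal_mul_I]
    rw [norm_mul, norm_mul, h1, mul_one, Complex.norm_real, Complex.norm_real,
      Real.norm_of_nonneg (Real.exp_pos _).le, Real.norm_of_nonneg hL0]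
    refine le_trans ?_ e1
    have h2 : L ≤ Real.exp L := by linarith [Real.add_one_le_exp L]
    calc L * Real.exp (-u ^ 2 / 2) ≤ Real.exp L * Real.exp (-(κ * L) ^ 2 / 2) := by
          gcongr
      _ = 1 * Real.exp (1 * L - κ ^ 2 / 2 * L ^ 2) := by
          rw [← Real.exp_add, one_mul]; congr 1; ring
  have b2 : ‖PP lamC u t - P1‖ ≤ C1 + 1 + 1 := by
    refine a2.trans ?_
    have h1 : C1 * Real.exp (4 + 2 * u - (κ * L) ^ 2 / 4) ≤ 1 := by
      refine le_trans ?_ e2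
      rw [mul_assoc, ← Real.exp_add]
      gcongr
      nlinarith
    have h2 : 4 * Real.exp (u + κ * L - (κ * L) ^ 2 / 2) ≤ 1 := by
      refine le_trans ?_ e3
      refine mul_le_mul_of_nonneg_left (Real.exp_le_exp.2 ?_) (by norm_num)
      nlinarith
    linarith
  have e : AA riemannZeta A B u t - (-(1 / Real.sqrt (2 * Real.pi) : ℝ) * P1) =
      (AA riemannZeta A B u t - (1 / Real.sqrt (2 * Real.pi) : ℝ) * (L * cexp (I * u * t) *
              Real.exp (-u ^ 2 / 2) - PP lamC u t)) +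
      (1 / Real.sqrt (2 * Real.pi) : ℝ) * (L * cexp (I * u * t) *
              Real.exp (-u ^ 2 / 2) - (PP lamC u t - P1)) := by ring
  rw [e]
  refine (norm_add_le _ _).trans (add_le_add a1 ?_)
  rw [norm_mul, Complex.norm_real, Real.norm_of_nonneg hq0]
  calc 1 / Real.sqrt (2 * Real.pi) * ‖(L : ℂ) * cexp (I * u * t) *
              Real.exp (-u ^ 2 / 2) - (PP lamC u t - P1)‖ ≤ 1 * ‖(L : ℂ) * cexp (I * u * t) *
              Real.exp (-u ^ 2 / 2) - (PP lamC u t - P1)‖ := by gcongr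
    _ ≤ 1 + (C1 + 1 + 1) := by
        rw [one_mul]
        exact (norm_sub_le _ _).trans (add_le_add b1 b2)

/-- the Dirichlet polynomial -/
noncomputable def DP (M : ℕ) (c : ℕ → ℂ) (t : ℝ) : ℂ :=
  ∑ m ∈ Finset.Icc 1 M, c m * (m : ℂ) ^ (-(t : ℂ) * I)

/-- its square sum -/
noncomputable def SS (M : ℕ) (c : ℕ → ℂ) : ℝ := ∑ m ∈ Finset.Icc 1 M, ‖c m‖ ^ 2

lemma SS_nonneg (M : ℕ) (c : ℕ → ℂ) : 0 ≤ SS M c := Finset.sum_nonneg fun _ _ => by positivity

lemma poly_cont (W : Finset ℕ) (b : ℕ → ℂ) (hW : ∀ n ∈ W, 1 ≤ n) :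
    Continuous fun t : ℝ => ∑ n ∈ W, b n * (n : ℂ) ^ (-(t : ℂ) * I) := by
  refine continuous_finsetSum _ fun n hn => continuous_const.mul ?_
  have hn0 : (n : ℂ) ≠ 0 := by
    have := hW n hn
    have : n ≠ 0 := by omega
    exact_mod_cast this
  have : (fun t : ℝ => (n : ℂ) ^ (-(t : ℂ) * I)) =
      fun t : ℝ => cexp (Complex.log n * (-(t : ℂ) * I)) := by
    funext t
    rw [Complex.cpow_def_of_ne_zero hn0]
  rw [this]
  fun_prop

lemma DP_cont (M : ℕ) (c : ℕ → ℂ) : Continuous (DP M c) :=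
  poly_cont _ c fun _ hn => (Finset.mem_Icc.1 hn).1

end Pool.Agent.D0H26.WM
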