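import Pool.Agent.H370R2.MV

/-! Two-sided mean value theorem for Dirichlet polynomials. -/

open Complex Filter Topology Set MeasureTheory

namespace Pool.Agent.D0H26.WM

open H370 H370.MV

lemma int_off {X m n : ℕ} (T1 T2 : ℝ) (h : T1 ≤ T2) (hm : m ∈ Finset.Icc 1 X)
    (hn : n ∈ Finset.Icc 1 X) :
    ‖(∫ t in T1..T2, cexp ((I * ((Real.log n - Real.log m : ℝ) : ℂ)) * t)) -
      (if m = n then ((T2 - T1 : ℝ) : ℂ) else 0)‖ ≤ 2 * X * (1 / |(m : ℝ) - n|) := by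
  have h1 := int_bound T1 T2 h hm hn
  by_cases hmn : m = n
  · subst hmn
    have : (∫ t in T1..T2, cexp ((I * ((Real.log m - Real.log m : ℝ) : ℂ)) * t)) =
        ((T2 - T1 : ℝ) : ℂ) := by
      simp
    rw [this, if_pos rfl, sub_self, norm_zero]
    positivity
  · rw [if_neg hmn] at h1 ⊢
    rw [sub_zero]
    linarith

/-- two-sided mean value theorem -/
theorem mean_two (b : ℕ → ℂ) (X : ℕ) (T1 T2 : ℝ) (h : T1 ≤ T2) :
    |(∫ t in T1..T2, ‖∑ n ∈ Finset.Icc 1 X, b n * (n : ℂ) ^ (-(t : ℂ) * I)‖ ^ 2) -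
      (T2 - T1) * ∑ n ∈ Finset.Icc 1 X, ‖b n‖ ^ 2| ≤
      (8 * X * (1 + Real.log X)) * ∑ n ∈ Finset.Icc 1 X, ‖b n‖ ^ 2 := by
  classical
  have hexp : ∀ t : ℝ, ((‖∑ n ∈ Finset.Icc 1 X, b n * (n : ℂ) ^ (-(t : ℂ) * I)‖ ^ 2 : ℝ) : ℂ) =
      ∑ m ∈ Finset.Icc 1 X, ∑ n ∈ Finset.Icc 1 X, b m * (starRingEnd ℂ) (b n) *
        cexp ((I * ((Real.log n - Real.log m : ℝ) : ℂ)) * t) := by
    intro t
    have h1 : ∀ z : ℂ, ((‖z‖ ^ 2 : ℝ) : ℂ) = z * (starRingEnd ℂ) z := by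
      intro z; rw [Complex.mul_conj']; push_cast; rfl
    rw [h1, map_sum, Finset.sum_mul_sum]
    refine Finset.sum_congr rfl fun m hm => Finset.sum_congr rfl fun n hn => ?_
    rw [Finset.mem_Icc] at hm hn
    have hm0 : (m : ℂ) ≠ 0 := by
      have : m ≠ 0 := by omega
      exact_mod_cast this
    have hn0 : (n : ℂ) ≠ 0 := by
      have : n ≠ 0 := by omega
      exact_mod_cast this
    rw [map_mul, Complex.cpow_def_of_ne_zero hm0, Complex.cpow_def_of_ne_zero hn0,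
      ← Complex.exp_conj, ← Complex.natCast_log, ← Complex.natCast_log]
    simp only [map_mul, map_neg, Complex.conj_ofReal, Complex.conj_I]
    rw [mul_mul_mul_comm, ← Complex.exp_add]
    congr 2
    push_cast
    ring
  have hint : ((∫ t in T1..T2, ‖∑ n ∈ Finset.Icc 1 X, b n * (n : ℂ) ^ (-(t : ℂ) * I)‖ ^ 2 : ℝ) : ℂ)
      = ∑ m ∈ Finset.Icc 1 X, ∑ n ∈ Finset.Icc 1 X, b m * (starRingEnd ℂ) (b n) *
        ∫ t in T1..T2, cexp ((I * ((Real.log n - Real.log m : ℝ) : ℂ)) * t) := by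
    rw [← intervalIntegral.integral_ofReal]
    simp_rw [hexp]
    rw [intervalIntegral.integral_finsetSum]
    · refine Finset.sum_congr rfl fun m hm => ?_
      rw [intervalIntegral.integral_finsetSum]
      · refine Finset.sum_congr rfl fun n hn => ?_
        rw [intervalIntegral.integral_const_mul]
      · intro n hn
        exact (by fun_prop : Continuous fun t : ℝ => b m * (starRingEnd ℂ) (b n) *
          cexp ((I * ((Real.log n - Real.log m : ℝ) : ℂ)) * t)).intervalIntegrable _ _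
    · intro m hm
      exact (by fun_prop : Continuous fun t : ℝ => ∑ n ∈ Finset.Icc 1 X, b m *
        (starRingEnd ℂ) (b n) *
          cexp ((I * ((Real.log n - Real.log m : ℝ) : ℂ)) * t)).intervalIntegrable _ _
  have hdiag : (((T2 - T1) * ∑ n ∈ Finset.Icc 1 X, ‖b n‖ ^ 2 : ℝ) : ℂ) =
      ∑ m ∈ Finset.Icc 1 X, ∑ n ∈ Finset.Icc 1 X, b m * (starRingEnd ℂ) (b n) *
        (if m = n then ((T2 - T1 : ℝ) : ℂ) else 0) := by
    rw [Complex.ofReal_mul, Complex.ofReal_sum, Finset.mul_sum]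
    refine Finset.sum_congr rfl fun m hm => ?_
    rw [Finset.sum_eq_single m]
    · rw [if_pos rfl, Complex.mul_conj']
      push_cast
      ring
    · intro n _ hn
      rw [if_neg (Ne.symm hn), mul_zero]
    · intro h; exact absurd hm h
  have hle : |(∫ t in T1..T2, ‖∑ n ∈ Finset.Icc 1 X, b n * (n : ℂ) ^ (-(t : ℂ) * I)‖ ^ 2) -
      (T2 - T1) * ∑ n ∈ Finset.Icc 1 X, ‖b n‖ ^ 2| =
      ‖((∫ t in T1..T2, ‖∑ n ∈ Finset.Icc 1 X, b n * (n : ℂ) ^ (-(t : ℂ) * I)‖ ^ 2 : ℝ) : ℂ) -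
        (((T2 - T1) * ∑ n ∈ Finset.Icc 1 X, ‖b n‖ ^ 2 : ℝ) : ℂ)‖ := by
    rw [← Complex.ofReal_sub, Complex.norm_real, Real.norm_eq_abs]
  rw [hle, hint, hdiag, ← Finset.sum_sub_distrib]
  simp_rw [← Finset.sum_sub_distrib, ← mul_sub]
  have hb : ∀ m ∈ Finset.Icc 1 X, ∀ n ∈ Finset.Icc 1 X, ‖b m * (starRingEnd ℂ) (b n) *
        ((∫ t in T1..T2, cexp ((I * ((Real.log n - Real.log m : ℝ) : ℂ)) * t)) -
          (if m = n then ((T2 - T1 : ℝ) : ℂ) else 0))‖ ≤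
        (X * (1 / |(m : ℝ) - n|) * ‖b m‖ ^ 2 + X * (1 / |(n : ℝ) - m|) * ‖b n‖ ^ 2) := by
    intro m hm n hn
    rw [norm_mul, norm_mul, RCLike.norm_conj]
    have h1 := int_off T1 T2 h hm hn
    refine (mul_le_mul_of_nonneg_left h1 (by positivity)).trans ?_
    rw [abs_sub_comm (n : ℝ) m]
    have h3 : 2 * (‖b m‖ * ‖b n‖) ≤ ‖b m‖ ^ 2 + ‖b n‖ ^ 2 := by
      nlinarith [sq_nonneg (‖b m‖ - ‖b n‖)]
    have h4 : (0 : ℝ) ≤ X * (1 / |(m : ℝ) - n|) := by positivity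
    nlinarith [mul_le_mul_of_nonneg_left h3 h4]
  refine (norm_sum_le _ _).trans ((Finset.sum_le_sum fun m hm => (norm_sum_le _ _).trans
    (Finset.sum_le_sum fun n hn => hb m hm n hn)).trans ?_)
  simp_rw [Finset.sum_add_distrib]
  have hB : ∑ m ∈ Finset.Icc 1 X, ∑ n ∈ Finset.Icc 1 X,
      X * (1 / |(m : ℝ) - n|) * ‖b m‖ ^ 2 ≤
      2 * X * (1 + Real.log X) * ∑ n ∈ Finset.Icc 1 X, ‖b n‖ ^ 2 := by
    rw [Finset.mul_sum]
    refine Finset.sum_le_sum fun m hm => ?_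
    rw [← Finset.sum_mul, ← Finset.mul_sum]
    have := harm_sum X m hm
    have h5 : (X : ℝ) * ∑ n ∈ Finset.Icc 1 X, 1 / |(m : ℝ) - n| ≤
        X * (2 * (1 + Real.log X)) := mul_le_mul_of_nonneg_left this (by positivity)
    have h6 := mul_le_mul_of_nonneg_right h5 (sq_nonneg ‖b m‖)
    refine h6.trans (le_of_eq (by ring))
  have hC : ∑ m ∈ Finset.Icc 1 X, ∑ n ∈ Finset.Icc 1 X,
      X * (1 / |(n : ℝ) - m|) * ‖b n‖ ^ 2 ≤
      2 * X * (1 + Real.log X) * ∑ n ∈ Finset.Icc 1 X, ‖b n‖ ^ 2 := by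
    rw [Finset.sum_comm]
    exact hB
  have hlog : 0 ≤ Real.log (X : ℝ) := Real.log_natCast_nonneg X
  have hS : 0 ≤ (X : ℝ) * (1 + Real.log X) * ∑ n ∈ Finset.Icc 1 X, ‖b n‖ ^ 2 := by
    have : 0 ≤ ∑ n ∈ Finset.Icc 1 X, ‖b n‖ ^ 2 := Finset.sum_nonneg fun _ _ => by positivity
    positivity
  nlinarith

end Pool.Agent.D0H26.WM
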