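import Pool.Agent.D0H26.WM.GMain
import Pool.Agent.TH803.TW.ZSide
import Pool.Agent.H345R2.A2.Outer2

/-! The pair sum with the weight. -/

open Complex Filter Topology Set MeasureTheory
open scoped ComplexConjugate

namespace Pool.Agent.D0H26.WM

open H370 H370.A2

/-- the weight of a pair of zeros -/
noncomputable def WW (M : ℕ) (c : ℕ → ℂ) (s : ℂ) : ℂ :=
  ∑ m ∈ Finset.Icc 1 M, ∑ n ∈ Finset.Icc 1 M, c m * conj (c n) *
    (((n : ℂ) / m) ^ (s - 1 / 2) * cexp (-((Real.log n - Real.log m : ℝ) : ℂ) ^ 2 / 4))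

/-- the weighted pair sum -/
noncomputable def PS (A B u : ℝ) (M : ℕ) (c : ℕ → ℂ) : ℂ :=
  ∑ s ∈ Zf riemannZeta A B, ∑ s' ∈ Zf riemannZeta A B,
    (mult riemannZeta s : ℂ) * (mult riemannZeta s' : ℂ) *
      (cexp (u * (s - s') + (s - s') ^ 2 / 4) * WW M c ((s + s') / 2))

lemma DP_sq (M : ℕ) (c : ℕ → ℂ) (t : ℝ) : ((‖DP M c t‖ ^ 2 : ℝ) : ℂ) =
    ∑ m ∈ Finset.Icc 1 M, ∑ n ∈ Finset.Icc 1 M, c m * conj (c n) *
        cexp (I * ((Real.log n - Real.log m : ℝ) : ℂ) * t) := by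
  have h1 : ∀ z : ℂ, ((‖z‖ ^ 2 : ℝ) : ℂ) = z * (starRingEnd ℂ) z := by
    intro z; rw [Complex.mul_conj']; push_cast; rfl
  unfold DP
  rw [h1, map_sum, Finset.sum_mul_sum]
  refine Finset.sum_congr rfl fun m hm => Finset.sum_congr rfl fun n hn => ?_
  rw [Finset.mem_Icc] at hm hn
  have hm0 : (m : ℂ) ≠ 0 := by
    have : m ≠ 0 := by omega
    exact_mod_cast this
  have hn0 : (n : ℂ) ≠ 0 := by
    have : n ≠ 0 := by omega
    exact_mod_cast this
  rw [map_mul, Complex.cpow_def_of_ne_zero hm0, Complex.cpow_def_of_ne_zero hn0,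
    ← Complex.exp_conj, ← Complex.natCast_log, ← Complex.natCast_log]
  simp only [map_mul, map_neg, Complex.conj_ofReal, Complex.conj_I]
  rw [mul_mul_mul_comm, ← Complex.exp_add]
  congr 2
  push_cast
  ring

lemma tw_int (A B u : ℝ) (hA : 1 ≤ A) (τ : ℝ) : Integrable (fun t : ℝ =>
    ((‖AA riemannZeta A B u t‖ ^ 2 : ℝ) : ℂ) * cexp (I * τ * t)) := by
  have hec : Continuous (fun t : ℝ => cexp (I * τ * t)) := by fun_prop
  refine ((AA_sq_int good_zeta (U2 := B) hA u).ofReal (𝕜 := ℂ)).mul_bdd (c := 1)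
    hec.aestronglyMeasurable ?_
  exact Eventually.of_forall fun t => (TH803TW.tw_exp_norm τ t).le

/-- the integral over the whole line as a pair sum -/
lemma int_eq (A B u : ℝ) (hA : 1 ≤ A) (M : ℕ) (c : ℕ → ℂ) :
    ((∫ t : ℝ, ‖AA riemannZeta A B u t‖ ^ 2 * ‖DP M c t‖ ^ 2 : ℝ) : ℂ) =
      (Real.sqrt Real.pi : ℂ) * PS A B u M c := by
  have h1 : ∀ t : ℝ, ((‖AA riemannZeta A B u t‖ ^ 2 * ‖DP M c t‖ ^ 2 : ℝ) : ℂ) =
      ∑ m ∈ Finset.Icc 1 M, ∑ n ∈ Finset.Icc 1 M, c m * conj (c n) *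
        (((‖AA riemannZeta A B u t‖ ^ 2 : ℝ) : ℂ) *
          cexp (I * ((Real.log n - Real.log m : ℝ) : ℂ) * t)) := by
    intro t
    rw [Complex.ofReal_mul, DP_sq, Finset.mul_sum]
    refine Finset.sum_congr rfl fun m _ => ?_
    rw [Finset.mul_sum]
    refine Finset.sum_congr rfl fun n _ => ?_
    ring
  rw [← integral_complex_ofReal]
  simp_rw [h1]
  rw [integral_finsetSum _ (fun m _ => integrable_finsetSum _ fun n _ =>
    (tw_int A B u hA _).const_mul _)]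
  have h2 : ∀ m ∈ Finset.Icc 1 M, ∀ n ∈ Finset.Icc 1 M,
      ∫ t : ℝ, c m * conj (c n) * (((‖AA riemannZeta A B u t‖ ^ 2 : ℝ) : ℂ) *
          cexp (I * ((Real.log n - Real.log m : ℝ) : ℂ) * t)) =
      ∑ s ∈ Zf riemannZeta A B, ∑ s' ∈ Zf riemannZeta A B, (Real.sqrt Real.pi : ℂ) *
        ((mult riemannZeta s : ℂ) * (mult riemannZeta s' : ℂ) *
      (cexp (u * (s - s') + (s - s') ^ 2 / 4) * (c m * conj (c n) *
    (((n : ℂ) / m) ^ ((s + s') / 2 - 1 / 2) *
      cexp (-((Real.log n - Real.log m : ℝ) : ℂ) ^ 2 / 4))))) := by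
    intro m hm n hn
    rw [Finset.mem_Icc] at hm hn
    have hm0 : (0 : ℝ) < m := by exact_mod_cast hm.1
    have hn0 : (0 : ℝ) < n := by exact_mod_cast hn.1
    have h3 := TH803TW.JT_eq good_zeta (U2 := B) hA u (Real.log n - Real.log m)
    unfold TH803TW.JT at h3
    rw [integral_const_mul, h3, Finset.mul_sum, Finset.mul_sum]
    refine Finset.sum_congr rfl fun s _ => ?_
    rw [Finset.mul_sum, Finset.mul_sum]
    refine Finset.sum_congr rfl fun s' _ => ?_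
    have h4 : ((n : ℂ) / m) ^ ((s + s') / 2 - 1 / 2) =
        cexp (I * ((Real.log n - Real.log m : ℝ) : ℂ) * ((zz s + zz s') / 2)) := by
      have h5 : (n : ℂ) / m = ((n / m : ℝ) : ℂ) := by push_cast; rfl
      have h6 : ((n / m : ℝ) : ℂ) ≠ 0 := by
        rw [Complex.ofReal_ne_zero]; positivity
      rw [h5, Complex.cpow_def_of_ne_zero h6, ← Complex.ofReal_log (by positivity),
        Real.log_div hn0.ne' hm0.ne']
      congr 1
      unfold zz
      linear_combination (((Real.log n - Real.log m : ℝ) : ℂ) * ((s + s') / 2 - 1 / 2)) *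
        Complex.I_sq
    have h7 : cexp (I * u * (zz s - zz s')) * cexp (-(zz s - zz s') ^ 2 / 4) =
        cexp (u * (s - s') + (s - s') ^ 2 / 4) := by
      rw [← Complex.exp_add]
      congr 1
      unfold zz
      linear_combination (-(u * (s - s')) - (s - s') ^ 2 / 4) * Complex.I_sq
    rw [h4, ← h7]
    ring
  refine (Finset.sum_congr rfl fun m hm => (integral_finsetSum _ (fun n _ =>
    (tw_int A B u hA _).const_mul _)).trans
      (Finset.sum_congr rfl fun n hn => h2 m hm n hn)).trans ?_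
  unfold PS WW
  rw [Finset.mul_sum]
  -- exchange
  have h8 : ∀ f : ℕ → ℕ → ℂ → ℂ → ℂ,
      ∑ m ∈ Finset.Icc 1 M, ∑ n ∈ Finset.Icc 1 M, ∑ s ∈ Zf riemannZeta A B,
        ∑ s' ∈ Zf riemannZeta A B, f m n s s' =
      ∑ s ∈ Zf riemannZeta A B, ∑ s' ∈ Zf riemannZeta A B, ∑ m ∈ Finset.Icc 1 M,
        ∑ n ∈ Finset.Icc 1 M, f m n s s' := by
    intro f
    calc _ = ∑ m ∈ Finset.Icc 1 M, ∑ s ∈ Zf riemannZeta A B, ∑ n ∈ Finset.Icc 1 M,
        ∑ s' ∈ Zf riemannZeta A B, f m n s s' :=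
          Finset.sum_congr rfl fun m _ => Finset.sum_comm
      _ = ∑ s ∈ Zf riemannZeta A B, ∑ m ∈ Finset.Icc 1 M, ∑ n ∈ Finset.Icc 1 M,
        ∑ s' ∈ Zf riemannZeta A B, f m n s s' := Finset.sum_comm
      _ = ∑ s ∈ Zf riemannZeta A B, ∑ m ∈ Finset.Icc 1 M, ∑ s' ∈ Zf riemannZeta A B,
        ∑ n ∈ Finset.Icc 1 M, f m n s s' :=
          Finset.sum_congr rfl fun s _ => Finset.sum_congr rfl fun m _ => Finset.sum_comm
      _ = _ := Finset.sum_congr rfl fun s _ => Finset.sum_comm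
  rw [h8]
  refine Finset.sum_congr rfl fun s _ => ?_
  rw [Finset.mul_sum]
  refine Finset.sum_congr rfl fun s' _ => ?_
  rw [Finset.mul_sum, Finset.mul_sum, Finset.mul_sum]
  refine Finset.sum_congr rfl fun m _ => ?_
  rw [Finset.mul_sum, Finset.mul_sum, Finset.mul_sum]

lemma norm_npow (m : ℕ) (hm : 1 ≤ m) (t : ℝ) : ‖(m : ℂ) ^ (-(t : ℂ) * I)‖ = 1 := by
  have : -(t : ℂ) * I = ((-t : ℝ) : ℂ) * I := by push_cast; ring
  rw [Complex.norm_natCast_cpow_of_pos (by omega)]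
  simp

lemma DP_le (M : ℕ) (c : ℕ → ℂ) (t : ℝ) : ‖DP M c t‖ ^ 2 ≤ M * SS M c := by
  have h1 : ‖DP M c t‖ ≤ ∑ m ∈ Finset.Icc 1 M, ‖c m‖ := by
    unfold DP
    refine (norm_sum_le _ _).trans (Finset.sum_le_sum fun m hm => ?_)
    rw [norm_mul, norm_npow m (Finset.mem_Icc.1 hm).1, mul_one]
  have h2 := sq_sum_le_card_mul_sum_sq (s := Finset.Icc 1 M) (f := fun m => ‖c m‖)
  rw [Nat.card_Icc, Nat.add_sub_cancel] at h2
  unfold SS
  refine le_trans ?_ h2
  gcongr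

/-- coefficients which avoid the primes near `e ^ u` -/
lemma RA_avoid (u D : ℝ) (hD : 0 ≤ D) (M : ℕ) (c : ℕ → ℂ)
    (hc : ∀ m ∈ Finset.Icc 1 M, ∀ p : ℕ, p.Prime → |Real.log p - u| ≤ D → p ∣ m → c m = 0) :
    RA u M c ≤ 8 * (M : ℝ) ^ 2 * Real.exp (-D ^ 2) * SS M c := by
  have h1 := RA_close u D 1 hD one_pos M c
  have h2 : RW (Wn u D) (bc u) c M = 0 := by
    unfold RW
    refine Finset.sum_eq_zero fun j _ => ?_
    rw [Finset.sum_eq_zero, norm_zero]
    · norm_num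
    intro p hp
    unfold Wn at hp
    rw [Finset.mem_filter] at hp
    unfold cut
    by_cases h : p * j ∈ Finset.Icc 1 M
    · rw [if_pos h, hc _ h p hp.2.1 hp.2.2 (dvd_mul_right p j), mul_zero]
    · rw [if_neg h, mul_zero]
  rw [h2] at h1
  have h3 := (abs_le.1 h1).2
  linarith

/-- **the weighted pair sum** -/
theorem main_pair (ε : ℝ) (hε : 0 < ε) : ∃ T0 : ℝ, 10 ≤ T0 ∧ ∀ T : ℝ, T0 ≤ T → ∀ A B : ℝ,
    T + 1 ≤ A → B ≤ 2 * T - 1 → ∀ u : ℝ, ε * Real.log T ≤ u → ∀ (M : ℕ) (c : ℕ → ℂ), 1 ≤ M →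
      (M : ℝ) * Real.exp u * T ^ ε ≤ B - A →
      ‖PS A B u M c - (((B - A) / (2 * Real.pi) *
        (u * SS M c + RA u M c / Real.sqrt Real.pi) : ℝ) : ℂ)‖ ≤
        ε * Real.log T * ((B - A) * SS M c) ∧
      ((∀ m ∈ Finset.Icc 1 M, ∀ p : ℕ, p.Prime → |Real.log p - u| ≤ ε * Real.log T → p ∣ m →
        c m = 0) → RA u M c ≤ ε * SS M c) := by
  set ε1 : ℝ := ε / 2 with hε1
  have hε10 : 0 < ε1 := by positivity
  set C4 : ℝ := 2 + (8 / ε1 + 1) with hC4
  have hC40 : 0 < C4 := by positivity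
  obtain ⟨T1, hT1, hm⟩ := main_g ε1 hε10
  obtain ⟨Co, T2, hCo, hT2, hout⟩ := outer_tau good_zeta (τ := 1 / 2) (by norm_num)
  have ev1 := TH803TW.ev_log_pow (min (ε / (8 * C4)) (1 / 4)) 1 ε 1 (by positivity) (by norm_num) hε
  have ev2 := TH803TW.ev_log_pow 1 Co ε 3 one_pos hCo hε
  have ev3 : ∀ᶠ T : ℝ in atTop, 2 ≤ T ^ ε1 :=
    (tendsto_rpow_atTop hε10).eventually_ge_atTop _
  have ev4 : ∀ᶠ T : ℝ in atTop, 1 / (ε / 8) ≤ Real.log T :=
    Real.tendsto_log_atTop.eventually_ge_atTop _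
  have ev5 := TH803TW.ev_exp (8 / ε) 2 (ε ^ 2) (by positivity)
  obtain ⟨T3, hT3⟩ := ((((ev1.and ev2).and ev3).and ev4).and ev5).exists_forall_of_atTop
  refine ⟨max T1 (max T2 T3), hT1.trans (le_max_left _ _),
    fun T hT A B hA hB u hu M c hM hX => ?_⟩
  have hTT1 : T1 ≤ T := (le_max_left _ _).trans hT
  have hTT2 : T2 ≤ T := ((le_max_left _ _).trans (le_max_right _ _)).trans hT
  obtain ⟨⟨⟨⟨e1, e2⟩, e3⟩, e4⟩, e5⟩ := hT3 T (((le_max_right _ _).trans (le_max_right _ _)).trans hT)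
  have hT10 : 10 ≤ T := hT1.trans hTT1
  have hTpos : 0 < T := by linarith
  set L := Real.log T with hL
  have hL0 : 0 < L := Real.log_pos (by linarith)
  have hM1 : (1 : ℝ) ≤ M := by exact_mod_cast hM
  have hu0 : 0 ≤ u := (by positivity : 0 ≤ ε * L).trans hu
  have heu : 1 ≤ Real.exp u := Real.one_le_exp hu0
  have hTε : 1 ≤ T ^ ε := Real.one_le_rpow (by linarith) hε.le
  set H : ℝ := B - A with hH
  have hHT : H ≤ T := by rw [hH]; linarith
  have hMe : (M : ℝ) ≤ M * Real.exp u := le_mul_of_one_le_right (by positivity) heu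
  have hMH : (M : ℝ) * Real.exp u ≤ H := by
    refine le_trans ?_ hX
    exact le_mul_of_one_le_right (by positivity) hTε
  have hTH : T ^ ε ≤ H := by
    refine le_trans ?_ hX
    exact le_mul_of_one_le_left (by positivity) (by nlinarith)
  have huL : u ≤ L := by
    rw [hL, Real.le_log_iff_exp_le hTpos]
    calc Real.exp u ≤ M * Real.exp u := le_mul_of_one_le_left (by positivity) hM1
      _ ≤ T := hMH.trans hHT
  rw [pow_one] at e1
  have hTε0 : 0 ≤ T ^ ε := by linarith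
  have e1a : 1 + L ≤ ε / (8 * C4) * H := by
    have h1 : min (ε / (8 * C4)) (1 / 4) * T ^ ε ≤ ε / (8 * C4) * H := by
      gcongr
      exact min_le_left _ _
    linarith
  have e1b : 1 + L ≤ 1 / 4 * H := by
    have h1 : min (ε / (8 * C4)) (1 / 4) * T ^ ε ≤ 1 / 4 * H := by
      gcongr
      exact min_le_right _ _
    linarith
  set S := SS M c with hS
  have hS0 : 0 ≤ S := SS_nonneg M c
  have hH0 : 0 ≤ H := by linarith
  have hA1 : 1 ≤ A := by linarith
  set R := RA u M c with hR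
  have hR0 : 0 ≤ R := Finset.sum_nonneg fun _ _ => by positivity
  -- the inner part
  have hTT : T ^ ε1 * T ^ ε1 = T ^ ε := by
    rw [← Real.rpow_add hTpos]; congr 1; rw [hε1]; ring
  have hall := hm T hTT1 A B hA hB u (le_trans (by rw [hε1]; nlinarith) hu) M c hM
    (A + L) (B - L) le_rfl le_rfl (by
      have h1 : (M : ℝ) * Real.exp u * T ^ ε1 * 2 ≤ (M : ℝ) * Real.exp u * T ^ ε1 * T ^ ε1 := by
        gcongr
      have h2 : (M : ℝ) * Real.exp u * T ^ ε1 * T ^ ε1 = M * Real.exp u * T ^ ε := by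
        rw [mul_assoc, hTT]
      linarith)
  rw [← hL, ← hS, ← hR] at hall
  obtain ⟨hin, -, hRle⟩ := hall
  refine ⟨?_, ?_⟩
  swap
  · intro hc
    have h1 := RA_avoid u (ε * L) (by positivity) M c hc
    rw [← hR, ← hS] at h1
    refine h1.trans ?_
    have h3 : (M : ℝ) ^ 2 ≤ Real.exp (2 * L) := by
      have h4 : Real.exp (2 * L) = T ^ 2 := by
        rw [mul_comm, Real.exp_mul, hL, Real.exp_log hTpos]; norm_cast
      rw [h4]
      have : (M : ℝ) ≤ T := by linarith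
      gcongr
    have h5 : 8 * (M : ℝ) ^ 2 * Real.exp (-(ε * L) ^ 2) ≤ ε := by
      calc 8 * (M : ℝ) ^ 2 * Real.exp (-(ε * L) ^ 2) ≤
          8 * Real.exp (2 * L) * Real.exp (-(ε * L) ^ 2) := by gcongr
        _ = ε * (8 / ε * Real.exp (2 * L - ε ^ 2 * L ^ 2)) := by
            rw [mul_assoc, ← Real.exp_add]
            have : 2 * L + -(ε * L) ^ 2 = 2 * L - ε ^ 2 * L ^ 2 := by ring
            rw [this]
            field_simp
        _ ≤ ε * 1 := by gcongr
        _ = ε := mul_one _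
    gcongr
  -- the outer part
  have hint : Integrable fun t : ℝ => ‖AA riemannZeta A B u t‖ ^ 2 * ‖DP M c t‖ ^ 2 := by
    refine (AA_sq_int good_zeta (U2 := B) hA1 u).mul_bdd (c := M * S)
      ((DP_cont M c).norm.pow 2).aestronglyMeasurable ?_
    refine Eventually.of_forall fun t => ?_
    rw [Real.norm_of_nonneg (by positivity)]
    exact DP_le M c t
  have hsplit : ∫ t : ℝ, ‖AA riemannZeta A B u t‖ ^ 2 * ‖DP M c t‖ ^ 2 =
      (∫ t in (A + L)..(B - L), ‖AA riemannZeta A B u t‖ ^ 2 * ‖DP M c t‖ ^ 2) +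
      ∫ t in (Set.Icc (A + L) (B - L))ᶜ, ‖AA riemannZeta A B u t‖ ^ 2 * ‖DP M c t‖ ^ 2 := by
    rw [← integral_add_compl measurableSet_Icc hint,
      intervalIntegral.integral_of_le (by linarith), integral_Icc_eq_integral_Ioc]
  have hO0 : 0 ≤ ∫ t in (Set.Icc (A + L) (B - L))ᶜ,
      ‖AA riemannZeta A B u t‖ ^ 2 * ‖DP M c t‖ ^ 2 :=
    integral_nonneg fun t => by positivity
  have hO1 : ∫ t in (Set.Icc (A + L) (B - L))ᶜ,
      ‖AA riemannZeta A B u t‖ ^ 2 * ‖DP M c t‖ ^ 2 ≤ H * S := by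
    have h1 := hout T hTT2 A B (by linarith) (by linarith) (fun s hs _ => by
      have := hs.2.1; linarith) u hu0 huL
    have h2 : ∫ t in (Set.Icc (A + L) (B - L))ᶜ,
        ‖AA riemannZeta A B u t‖ ^ 2 * ‖DP M c t‖ ^ 2 ≤
        (∫ t in (Set.Icc (A + L) (B - L))ᶜ, ‖AA riemannZeta A B u t‖ ^ 2) * (M * S) := by
      rw [← integral_mul_const]
      refine integral_mono hint.integrableOn
        ((AA_sq_int good_zeta (U2 := B) hA1 u).mul_const _).integrableOn fun t => ?_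
      exact mul_le_mul_of_nonneg_left (DP_le M c t) (by positivity)
    refine h2.trans ?_
    have h3 : Real.exp (2 * (1 / 2) * u) = Real.exp u := by congr 1; ring
    rw [h3] at h1
    calc _ ≤ (Co * Real.exp u * L ^ 3) * (M * S) := by gcongr
      _ ≤ (Co * Real.exp u * (1 + L) ^ 3) * (M * S) := by gcongr; linarith
      _ = (M * Real.exp u) * (Co * (1 + L) ^ 3) * S := by ring
      _ ≤ (M * Real.exp u) * (1 * T ^ ε) * S := by gcongr
      _ = (M * Real.exp u * T ^ ε) * S := by ring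
      _ ≤ H * S := by gcongr
  -- assembly
  have hsp0 : 0 < Real.sqrt Real.pi := by positivity
  have hsp1 : 1 ≤ Real.sqrt Real.pi := by
    rw [Real.one_le_sqrt]; linarith [Real.pi_gt_three]
  have hsp : Real.sqrt Real.pi ≤ 2 := by
    rw [show (2 : ℝ) = Real.sqrt 4 by
      rw [show (4 : ℝ) = 2 ^ 2 by norm_num, Real.sqrt_sq (by norm_num)]]
    exact Real.sqrt_le_sqrt (by linarith [Real.pi_lt_four])
  have hJ := int_eq A B u hA1 M c
  set J : ℝ := ∫ t : ℝ, ‖AA riemannZeta A B u t‖ ^ 2 * ‖DP M c t‖ ^ 2 with hJd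
  set IN : ℝ := ∫ t in (A + L)..(B - L), ‖AA riemannZeta A B u t‖ ^ 2 * ‖DP M c t‖ ^ 2 with hIN
  set O : ℝ := ∫ t in (Set.Icc (A + L) (B - L))ᶜ,
      ‖AA riemannZeta A B u t‖ ^ 2 * ‖DP M c t‖ ^ 2 with hO
  have hPS : PS A B u M c = ((J / Real.sqrt Real.pi : ℝ) : ℂ) := by
    push_cast
    rw [hJ]
    have : (Real.sqrt Real.pi : ℂ) ≠ 0 := by
      rw [Complex.ofReal_ne_zero]; exact hsp0.ne'
    field_simp
  rw [hPS, ← Complex.ofReal_sub, Complex.norm_real, Real.norm_eq_abs]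
  set Y : ℝ := Real.sqrt Real.pi * u * S + R with hY
  have hY0 : 0 ≤ Y := by positivity
  have h1 : J / Real.sqrt Real.pi - H / (2 * Real.pi) * (u * S + R / Real.sqrt Real.pi) =
      (J - H / (2 * Real.pi) * Y) / Real.sqrt Real.pi := by
    rw [hY]
    field_simp
  rw [h1, abs_div, abs_of_pos hsp0]
  refine (div_le_self (abs_nonneg _) hsp1).trans ?_
  have hHS : 0 ≤ H * S := by positivity
  have hYle : Y ≤ C4 * (L * S) := by
    have h2 : Real.sqrt Real.pi * u * S ≤ 2 * L * S := by gcongr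
    rw [hY, hC4]
    linarith
  have h2 : |J - H / (2 * Real.pi) * Y| ≤
      ε1 * L * ((B - L - (A + L)) * S) + H * S + L * (C4 * (L * S)) := by
    have h3 : J - H / (2 * Real.pi) * Y =
        (IN - (B - L - (A + L)) / (2 * Real.pi) * Y) + O - L / Real.pi * Y := by
      rw [hsplit, hH]
      field_simp
      ring
    rw [h3]
    have h4 : L / Real.pi ≤ L := div_le_self hL0.le (by linarith [Real.pi_gt_three])
    refine (abs_sub _ _).trans (add_le_add ((abs_add_le _ _).trans (add_le_add hin ?_)) ?_)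
    · rw [abs_of_nonneg hO0]; exact hO1
    · rw [abs_of_nonneg (by positivity)]
      gcongr
  refine h2.trans ?_
  have h6 : ε1 * L * ((B - L - (A + L)) * S) ≤ ε / 2 * L * (H * S) := by
    rw [hε1]
    gcongr
    linarith
  have h7 : H * S ≤ (ε / 8 * L) * (H * S) := by
    refine le_mul_of_one_le_left hHS ?_
    rw [div_le_iff₀ (by positivity)] at e4
    linarith
  have h8 : L * (C4 * (L * S)) ≤ L * (C4 * ((ε / (8 * C4) * H) * S)) := by
    gcongr
    linarith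
  have h9 : L * (C4 * ((ε / (8 * C4) * H) * S)) = ε / 8 * (L * (H * S)) := by
    field_simp
  have h10 : 0 ≤ ε * (L * (H * S)) := by positivity
  calc _ ≤ ε / 2 * L * (H * S) + (ε / 8 * L) * (H * S) + ε / 8 * (L * (H * S)) := by linarith
    _ ≤ ε * L * (H * S) := by linarith

end Pool.Agent.D0H26.WM
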