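import Pool.Agent.D0H26.WM.Abel
import Pool.Agent.H345R2.A2.VVl
import Pool.Agent.Cov.PNT

/-! Sums over primes with Gaussian weights. -/

open Filter Topology Set MeasureTheory

namespace Pool.Agent.D0H26.WM

open H370 H370.A2

lemma psi_bd (δ : ℝ) (hδ : 0 < δ) : ∃ K : ℝ, 0 ≤ K ∧
    ∀ t : ℝ, 0 ≤ t → |Chebyshev.psi t - t| ≤ δ * t + K := by
  have h := Pool.Agent.Cov.PNT.psi_div_tendsto
  obtain ⟨T, hT⟩ := Filter.eventually_atTop.1 ((Metric.tendsto_nhds.mp h) δ hδ)
  have hT1 : (0 : ℝ) < max T 1 := lt_of_lt_of_le one_pos (le_max_right _ _)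
  refine ⟨Chebyshev.psi (max T 1) + max T 1, by
    have := Chebyshev.psi_nonneg (max T 1)
    linarith, fun t ht => ?_⟩
  by_cases htT : max T 1 ≤ t
  · have ht0 : 0 < t := lt_of_lt_of_le hT1 htT
    have h1 := hT t ((le_max_left _ _).trans htT)
    rw [Real.dist_eq] at h1
    have h2 : Chebyshev.psi t - t = (Chebyshev.psi t / t - 1) * t := by
      field_simp
    rw [h2, abs_mul, abs_of_pos ht0]
    have := mul_le_mul_of_nonneg_right h1.le ht0.le
    have h3 := Chebyshev.psi_nonneg (max T 1)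
    linarith
  · push Not at htT
    have h1 := Chebyshev.psi_mono htT.le
    have h2 := Chebyshev.psi_nonneg t
    have h3 : 0 ≤ δ * t := by positivity
    rw [abs_le]
    constructor <;> linarith

lemma sum_lam (n : ℕ) : ∑ k ∈ Finset.Icc 1 n, ArithmeticFunction.vonMangoldt k =
    Chebyshev.psi (n : ℝ) := by
  rw [Chebyshev.psi, Nat.floor_natCast]
  rfl

/-- a Gaussian moment -/
lemma g_int (c : ℝ) (hc : 0 < c) (k : ℕ) :
    Integrable (fun x : ℝ => (1 + |x|) ^ k * Real.exp (-c * x ^ 2)) := by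
  have h1 : Integrable (fun x : ℝ => Real.exp (-(c / 2) * x ^ 2)) :=
    integrable_exp_neg_mul_sq (by positivity)
  have h2 : ∃ B : ℝ, ∀ x : ℝ, (1 + |x|) ^ k * Real.exp (-(c / 2) * x ^ 2) ≤ B := by
    have h3 : Tendsto (fun y : ℝ => (1 + y) ^ k * Real.exp (-(c / 2) * y ^ 2)) atTop (𝓝 0) := by
      have h4 : Tendsto (fun y : ℝ => (1 + y) ^ k * Real.exp (-(1 + y))) atTop (𝓝 0) :=
        (Real.tendsto_pow_mul_exp_neg_atTop_nhds_zero k).comp
          (tendsto_atTop_add_const_left _ 1 tendsto_id)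
      refine squeeze_zero' ?_ ?_ h4
      · filter_upwards [eventually_ge_atTop 0] with y hy
        positivity
      · filter_upwards [eventually_ge_atTop (4 / c), eventually_ge_atTop 1] with y hy hy1
        have h5 : 4 ≤ c * y := by
          rw [div_le_iff₀ hc] at hy; linarith
        gcongr
        nlinarith
    have h5 : Continuous (fun y : ℝ => (1 + y) ^ k * Real.exp (-(c / 2) * y ^ 2)) := by fun_prop
    obtain ⟨y0, hy0⟩ := (h3.eventually (gt_mem_nhds one_pos)).exists_forall_of_atTop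
    obtain ⟨B, hB⟩ := isCompact_Icc.bddAbove_image (h5.continuousOn (s := Icc (0 : ℝ) (max y0 0)))
    refine ⟨max B 1, fun x => ?_⟩
    have h6 : (1 + |x|) ^ k * Real.exp (-(c / 2) * x ^ 2) =
        (1 + |x|) ^ k * Real.exp (-(c / 2) * |x| ^ 2) := by rw [sq_abs]
    rw [h6]
    by_cases hx : |x| ≤ max y0 0
    · exact (hB (mem_image_of_mem _ ⟨abs_nonneg x, hx⟩)).trans (le_max_left _ _)
    · push Not at hx
      exact (hy0 |x| ((le_max_left _ _).trans hx.le)).le.trans (le_max_right _ _)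
  obtain ⟨B, hB⟩ := h2
  refine Integrable.mono' (h1.const_mul B) (by fun_prop) (Eventually.of_forall fun x => ?_)
  have e1 : Real.exp (-c * x ^ 2) = Real.exp (-(c / 2) * x ^ 2) * Real.exp (-(c / 2) * x ^ 2) := by
    rw [← Real.exp_add]; congr 1; ring
  rw [Real.norm_of_nonneg (by positivity), e1, ← mul_assoc]
  exact mul_le_mul_of_nonneg_right (hB x) (Real.exp_pos _).le

/-- the Gaussian moments -/
noncomputable def mom (c : ℝ) (k : ℕ) : ℝ := ∫ x : ℝ, (1 + |x|) ^ k * Real.exp (-c * x ^ 2)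

lemma mom_nonneg (c : ℝ) (k : ℕ) : 0 ≤ mom c k := integral_nonneg fun x => by positivity

lemma mom_bd (c : ℝ) (hc : 0 < c) (k : ℕ) (u l : ℝ) (hl : 0 ≤ l) (f : ℝ → ℝ) (M : ℝ)
    (hf : Continuous f) (h : ∀ v ∈ Icc 0 l, f v ≤ M * ((1 + |u - v|) ^ k *
      Real.exp (-c * (u - v) ^ 2))) (hM : 0 ≤ M) : ∫ v in (0 : ℝ)..l, f v ≤ M * mom c k := by
  have h1 : Integrable (fun v : ℝ => (1 + |u - v|) ^ k * Real.exp (-c * (u - v) ^ 2)) :=
    (g_int c hc k).comp_sub_left u
  calc ∫ v in (0 : ℝ)..l, f v ≤ ∫ v in (0 : ℝ)..l, M * ((1 + |u - v|) ^ k *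
      Real.exp (-c * (u - v) ^ 2)) :=
        intervalIntegral.integral_mono_on hl (hf.intervalIntegrable _ _)
          (h1.const_mul M).intervalIntegrable h
    _ = M * ∫ v in (0 : ℝ)..l, (1 + |u - v|) ^ k * Real.exp (-c * (u - v) ^ 2) :=
        intervalIntegral.integral_const_mul _ _
    _ ≤ M * ∫ v : ℝ, (1 + |u - v|) ^ k * Real.exp (-c * (u - v) ^ 2) := by
        apply mul_le_mul_of_nonneg_left _ hM
        rw [intervalIntegral.integral_of_le hl]
        exact setIntegral_le_integral h1 (Eventually.of_forall fun v => by positivity)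
    _ = M * mom c k := by
        rw [mom, ← integral_sub_left_eq_self (fun x : ℝ => (1 + |x|) ^ k *
          Real.exp (-c * x ^ 2)) volume u]

/-- prime powers contribute boundedly, pointwise -/
theorem Dn_weight : ∃ C : ℝ, 0 ≤ C ∧ ∀ (u : ℝ) (N : ℕ), 1 ≤ N →
    ∑ n ∈ Finset.Icc 1 N, Dn n * ((Real.sqrt n)⁻¹ * Real.exp (-(u - Real.log n) ^ 2 / 2)) ≤ C := by
  obtain ⟨C0, hC0⟩ := Chebyshev.psi_sub_theta_le_mul_sqrt
  set C : ℝ := max C0 0 with hC
  have hC1 : 0 ≤ C := le_max_right _ _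
  have hC2 : C0 ≤ C := le_max_left _ _
  have hm0 := mom_nonneg (1 / 2) 1
  refine ⟨C * 1 + C * mom (1 / 2) 1, by positivity, fun u N hN => ?_⟩
  have hG : ∀ v : ℝ, HasDerivAt (fun v : ℝ => Real.exp (-v / 2 - (u - v) ^ 2 / 2))
      ((-1 / 2 + (u - v)) * Real.exp (-v / 2 - (u - v) ^ 2 / 2)) v := by
    intro v
    have h1 : HasDerivAt (fun v : ℝ => -v / 2 - (u - v) ^ 2 / 2) (-1 / 2 + (u - v)) v := by
      have h2 : HasDerivAt (fun v : ℝ => u - v) (-1) v := (hasDerivAt_id v).const_sub u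
      have h3 := (((hasDerivAt_id v).neg).div_const 2).sub ((h2.pow 2).div_const 2)
      refine h3.congr_deriv ?_
      push_cast
      ring
    refine h1.exp.congr_deriv ?_
    ring
  have hD : ∀ n : ℕ, 1 ≤ n → ∑ k ∈ Finset.Icc 1 n, Dn k =
      Chebyshev.psi (n : ℝ) - Chebyshev.theta (n : ℝ) := by
    intro n hn
    rw [Chebyshev.psi_sub_theta_eq_sum_not_prime, Nat.floor_natCast, Finset.sum_filter]
    refine Finset.sum_congr rfl fun k _ => ?_
    unfold Dn
    by_cases hk : k.Prime <;> simp [hk]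
  have h := abel_log Dn (fun _ => 0) (fun v => C * Real.exp (v / 2))
    (fun v : ℝ => Real.exp (-v / 2 - (u - v) ^ 2 / 2))
    (fun v : ℝ => (-1 / 2 + (u - v)) * Real.exp (-v / 2 - (u - v) ^ 2 / 2)) N hN
    continuous_const (by fun_prop) hG (by fun_prop) (fun n hn v hv1 hv2 => by
      have hn0 : (0 : ℝ) < n := by exact_mod_cast hn
      have h0 : 0 ≤ ∑ k ∈ Finset.Icc 1 n, Dn k := Finset.sum_nonneg fun k _ => Dn_nonneg k
      rw [sub_zero, abs_of_nonneg h0, hD n hn]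
      refine (hC0 n).trans ?_
      have h1 : Real.sqrt n ≤ Real.exp (v / 2) := by
        rw [Real.sqrt_eq_rpow, Real.rpow_def_of_pos hn0]
        apply Real.exp_le_exp.2
        linarith
      gcongr)
  simp only [zero_mul, intervalIntegral.integral_zero, sub_zero] at h
  have hl : 0 ≤ Real.log (N : ℝ) := Real.log_natCast_nonneg N
  have e1 : ∑ n ∈ Finset.Icc 1 N, Dn n * ((Real.sqrt n)⁻¹ * Real.exp (-(u - Real.log n) ^ 2 / 2)) =
      ∑ n ∈ Finset.Icc 1 N, Dn n * Real.exp (-Real.log n / 2 - (u - Real.log n) ^ 2 / 2) := by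
    refine Finset.sum_congr rfl fun n hn => ?_
    have hn0 : (0 : ℝ) < n := by exact_mod_cast (Finset.mem_Icc.1 hn).1
    congr 1
    rw [Real.sqrt_eq_rpow, ← Real.rpow_neg hn0.le, Real.rpow_def_of_pos hn0, ← Real.exp_add]
    congr 1; ring
  rw [e1]
  refine (le_abs_self _).trans (h.trans (add_le_add ?_ ?_))
  · rw [abs_of_pos (Real.exp_pos _), mul_assoc, ← Real.exp_add]
    apply mul_le_mul_of_nonneg_left _ hC1
    rw [Real.exp_le_one_iff]
    nlinarith [sq_nonneg (u - Real.log (N : ℝ))]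
  · refine mom_bd (1 / 2) (by norm_num) 1 u _ hl _ C (by fun_prop) (fun v _ => ?_) hC1
    rw [abs_mul, abs_of_pos (Real.exp_pos _)]
    have e2 : Real.exp (-v / 2 - (u - v) ^ 2 / 2) = Real.exp (-(v / 2)) *
        Real.exp (-(1 / 2) * (u - v) ^ 2) := by
      rw [← Real.exp_add]; congr 1; ring
    have e3 : Real.exp (v / 2) * Real.exp (-(v / 2)) = 1 := by
      rw [← Real.exp_add]; simp
    have e4 : |-1 / 2 + (u - v)| ≤ 1 + |u - v| := by
      refine (abs_add_le _ _).trans ?_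
      have : |(-1 / 2 : ℝ)| ≤ 1 := by norm_num [abs_le]
      linarith
    calc C * Real.exp (v / 2) * (|-1 / 2 + (u - v)| * Real.exp (-v / 2 - (u - v) ^ 2 / 2)) =
        C * (|-1 / 2 + (u - v)| * Real.exp (-(1 / 2) * (u - v) ^ 2)) *
          (Real.exp (v / 2) * Real.exp (-(v / 2))) := by rw [e2]; ring
      _ = C * (|-1 / 2 + (u - v)| * Real.exp (-(1 / 2) * (u - v) ^ 2)) := by rw [e3, mul_one]
      _ ≤ C * ((1 + |u - v|) ^ 1 * Real.exp (-(1 / 2) * (u - v) ^ 2)) := by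
          rw [pow_one]; gcongr

end Pool.Agent.D0H26.WM
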