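import Pool.Agent.D0H26.WM.Mv

/-! The mean square of the product of a Dirichlet polynomial over a set of primes and another one. -/

open Complex Filter Topology Set MeasureTheory

namespace Pool.Agent.D0H26.WM

variable {W : Finset ℕ} {b c : ℕ → ℂ} {M X : ℕ}

/-- the coefficients of the product -/
noncomputable def ek (W : Finset ℕ) (b c : ℕ → ℂ) (M : ℕ) (k : ℕ) : ℂ :=
  ∑ x ∈ (W ×ˢ Finset.Icc 1 M).filter (fun x => x.1 * x.2 = k), b x.1 * c x.2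

lemma maps (hW : W ⊆ Finset.Icc 1 X) : ∀ x ∈ W ×ˢ Finset.Icc 1 M,
    x.1 * x.2 ∈ Finset.Icc 1 (X * M) := by
  intro x hx
  rw [Finset.mem_product] at hx
  have h1 := Finset.mem_Icc.1 (hW hx.1)
  have h2 := Finset.mem_Icc.1 hx.2
  rw [Finset.mem_Icc]
  exact ⟨Nat.one_le_iff_ne_zero.2 (Nat.mul_ne_zero (by omega) (by omega)),
    Nat.mul_le_mul h1.2 h2.2⟩

lemma prod_eq (hW : W ⊆ Finset.Icc 1 X) (s : ℂ) :
    (∑ p ∈ W, b p * (p : ℂ) ^ s) * (∑ m ∈ Finset.Icc 1 M, c m * (m : ℂ) ^ s) =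
      ∑ k ∈ Finset.Icc 1 (X * M), ek W b c M k * (k : ℂ) ^ s := by
  rw [Finset.sum_mul_sum, ← Finset.sum_product', ← Finset.sum_fiberwise_of_maps_to (maps hW)]
  refine Finset.sum_congr rfl fun k _ => ?_
  unfold ek
  rw [Finset.sum_mul]
  refine Finset.sum_congr rfl fun x hx => ?_
  have hk := (Finset.mem_filter.1 hx).2
  rw [← hk]
  push_cast
  rw [Complex.natCast_mul_natCast_cpow]
  ring

/-- unique factorisation -/
def Uniq (W : Finset ℕ) (c : ℕ → ℂ) (M : ℕ) : Prop :=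
  ∀ p ∈ W, ∀ p' ∈ W, ∀ m ∈ Finset.Icc 1 M, ∀ m' ∈ Finset.Icc 1 M, c m ≠ 0 → c m' ≠ 0 →
    p * m = p' * m' → p = p' ∧ m = m'

lemma ek_sq (hU : Uniq W c M) (k : ℕ) : ‖ek W b c M k‖ ^ 2 =
    ∑ x ∈ (W ×ˢ Finset.Icc 1 M).filter (fun x => x.1 * x.2 = k), ‖b x.1‖ ^ 2 * ‖c x.2‖ ^ 2 := by
  classical
  unfold ek
  set S := (W ×ˢ Finset.Icc 1 M).filter (fun x => x.1 * x.2 = k) with hS
  by_cases h : ∃ x ∈ S, c x.2 ≠ 0
  · obtain ⟨x, hx, hcx⟩ := h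
    have h1 : ∀ y ∈ S, y ≠ x → c y.2 = 0 := by
      intro y hy hyx
      by_contra hcy
      rw [hS, Finset.mem_filter, Finset.mem_product] at hx hy
      obtain ⟨e1, e2⟩ := hU y.1 hy.1.1 x.1 hx.1.1 y.2 hy.1.2 x.2 hx.1.2 hcy hcx
        (hy.2.trans hx.2.symm)
      exact hyx (Prod.ext e1 e2)
    rw [Finset.sum_eq_single_of_mem x hx (fun y hy hyx => by rw [h1 y hy hyx, mul_zero]),
      Finset.sum_eq_single_of_mem x hx (fun y hy hyx => by rw [h1 y hy hyx]; simp),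
      norm_mul, mul_pow]
  · push Not at h
    rw [Finset.sum_eq_zero (fun y hy => by rw [h y hy, mul_zero]),
      Finset.sum_eq_zero (fun y hy => by rw [h y hy]; simp)]
    simp

lemma ek_sum (hW : W ⊆ Finset.Icc 1 X) (hU : Uniq W c M) :
    ∑ k ∈ Finset.Icc 1 (X * M), ‖ek W b c M k‖ ^ 2 =
      (∑ p ∈ W, ‖b p‖ ^ 2) * ∑ m ∈ Finset.Icc 1 M, ‖c m‖ ^ 2 := by
  rw [Finset.sum_mul_sum, ← Finset.sum_product', ← Finset.sum_fiberwise_of_maps_to (maps hW)]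
  exact Finset.sum_congr rfl fun k _ => ek_sq hU k

/-- the mean square of the product -/
theorem prod_mean (hW : W ⊆ Finset.Icc 1 X) (hU : Uniq W c M) (T1 T2 : ℝ) (h : T1 ≤ T2) :
    |(∫ t in T1..T2, ‖(∑ p ∈ W, b p * (p : ℂ) ^ (-(t : ℂ) * I)) *
        (∑ m ∈ Finset.Icc 1 M, c m * (m : ℂ) ^ (-(t : ℂ) * I))‖ ^ 2) -
      (T2 - T1) * ((∑ p ∈ W, ‖b p‖ ^ 2) * ∑ m ∈ Finset.Icc 1 M, ‖c m‖ ^ 2)| ≤
      (8 * (X * M : ℕ) * (1 + Real.log (X * M : ℕ))) *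
        ((∑ p ∈ W, ‖b p‖ ^ 2) * ∑ m ∈ Finset.Icc 1 M, ‖c m‖ ^ 2) := by
  have h1 := mean_two (ek W b c M) (X * M) T1 T2 h
  simp_rw [← prod_eq hW] at h1
  rw [ek_sum hW hU] at h1
  exact h1

/-- primes of the window do not divide the integers with nonzero coefficients -/
lemma uniq_of (hW : ∀ p ∈ W, p.Prime) (hc : ∀ m ∈ Finset.Icc 1 M, ∀ p ∈ W, p ∣ m → c m = 0) :
    Uniq W c M := by
  intro p hp p' hp' m hm m' hm' h0 h0' he
  have h1 : p ∣ p' * m' := he ▸ dvd_mul_right p m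
  have h2 : p = p' := by
    rcases ((hW p hp).dvd_mul).1 h1 with h | h
    · exact (Nat.prime_dvd_prime_iff_eq (hW p hp) (hW p' hp')).1 h
    · exact absurd (hc m' hm' p hp h) h0'
  refine ⟨h2, ?_⟩
  subst h2
  exact Nat.eq_of_mul_eq_mul_left (hW p hp).pos he

end Pool.Agent.D0H26.WM
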