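import Pool.Agent.D0H26.WM.Asy
import Pool.Agent.D0H26.WM.Prod
import Pool.Agent.H345R2.A2.EFb

/-! The prime side: the primes of a window around `e ^ u`. -/

open Complex Filter Topology Set MeasureTheory

namespace Pool.Agent.D0H26.WM

open H370 H370.A2

/-- the length of the sums -/
noncomputable def Xn (u D : ℝ) : ℕ := ⌈Real.exp (u + D)⌉₊

open Classical in
/-- the primes of the window -/
noncomputable def Wn (u D : ℝ) : Finset ℕ :=
  (Finset.Icc 1 (Xn u D)).filter (fun p => p.Prime ∧ |Real.log p - u| ≤ D)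

/-- the size of the coefficients -/
noncomputable def br (u : ℝ) (p : ℕ) : ℝ :=
  Real.log p * (Real.sqrt p)⁻¹ * Real.exp (-(u - Real.log p) ^ 2 / 2)

lemma Xn_pos (u D : ℝ) : 1 ≤ Xn u D := Nat.one_le_iff_ne_zero.2 (by
  unfold Xn
  have := Nat.ceil_pos.2 (Real.exp_pos (u + D))
  omega)

lemma Xn_le {u D : ℝ} (h : 0 ≤ u + D) : (Xn u D : ℝ) ≤ 2 * Real.exp (u + D) := by
  unfold Xn
  have h1 := (Nat.ceil_lt_add_one (Real.exp_pos (u + D)).le).le
  have h2 := Real.one_le_exp h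
  linarith

lemma log_Xn (u D : ℝ) : u + D ≤ Real.log (Xn u D) := by
  have h1 : Real.exp (u + D) ≤ Xn u D := Nat.le_ceil _
  rw [Real.le_log_iff_exp_le (by exact_mod_cast Xn_pos u D)]
  exact h1

lemma log_le_two_sqrt (n : ℕ) : Real.log n ≤ 2 * Real.sqrt n := by
  have h := Real.log_le_rpow_div (x := (n : ℝ)) (by positivity) (ε := 1 / 2) (by norm_num)
  rw [← Real.sqrt_eq_rpow] at h
  linarith

lemma br_nonneg (u : ℝ) (p : ℕ) : 0 ≤ br u p := by
  unfold br
  have := Real.log_natCast_nonneg p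
  positivity

lemma br_sq (u : ℝ) {n : ℕ} (hn : 1 ≤ n) : br u n ^ 2 =
    Real.log n * (Real.log n * Real.exp (-Real.log n - (u - Real.log n) ^ 2)) := by
  have hn0 : (0 : ℝ) < n := by exact_mod_cast hn
  unfold br
  rw [mul_pow, mul_pow, inv_pow, Real.sq_sqrt hn0.le, ← Real.exp_nat_mul]
  have e1 : Real.exp (-Real.log n - (u - Real.log n) ^ 2) =
      (n : ℝ)⁻¹ * Real.exp (-(u - Real.log n) ^ 2) := by
    rw [sub_eq_add_neg, Real.exp_add, Real.exp_neg, Real.exp_log hn0]
  rw [e1]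
  have e2 : ((2 : ℕ) : ℝ) * (-(u - Real.log n) ^ 2 / 2) = -(u - Real.log n) ^ 2 := by
    push_cast; ring
  rw [e2]
  ring

lemma br_le (u : ℝ) (n : ℕ) : br u n ≤ 2 * Real.exp (-(u - Real.log n) ^ 2 / 2) := by
  unfold br
  have h1 : Real.log n * (Real.sqrt n)⁻¹ ≤ 2 := by
    rcases Nat.eq_zero_or_pos n with rfl | hn
    · simp
    · have hs : 0 < Real.sqrt n := Real.sqrt_pos.mpr (by exact_mod_cast hn)
      rw [← div_eq_mul_inv, div_le_iff₀ hs]
      exact log_le_two_sqrt n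
  gcongr

lemma br_out {u D : ℝ} (hD : 0 ≤ D) {n : ℕ} (h : D < |Real.log n - u|) :
    br u n ≤ 2 * Real.exp (-D ^ 2 / 2) := by
  refine (br_le u n).trans ?_
  gcongr 2 * Real.exp ?_
  have h1 : D ^ 2 ≤ (u - Real.log n) ^ 2 := by
    rw [← sq_abs (u - Real.log n), abs_sub_comm]
    exact pow_le_pow_left₀ hD h.le 2
  linarith

open Classical in
/-- the square sum of the window -/
theorem Q_close : ∃ C : ℝ, 0 ≤ C ∧ ∀ u D : ℝ, 0 ≤ u → 0 ≤ D →
    |∑ p ∈ Wn u D, br u p ^ 2 -
      ∑ n ∈ Finset.Icc 1 (Xn u D), ArithmeticFunction.vonMangoldt n *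
        (Real.log n * Real.exp (-Real.log n - (u - Real.log n) ^ 2))| ≤
      C + 8 * Real.exp (u + D) * Real.exp (-D ^ 2) := by
  obtain ⟨C, hC, hD1⟩ := Dn_sum
  refine ⟨C, hC, fun u D hu hD => ?_⟩
  have h1 : ∑ p ∈ Wn u D, br u p ^ 2 = ∑ n ∈ Finset.Icc 1 (Xn u D),
      (if n.Prime ∧ |Real.log n - u| ≤ D then br u n ^ 2 else 0) := by
    unfold Wn
    rw [Finset.sum_filter]
  rw [h1, abs_sub_comm, ← Finset.sum_sub_distrib]
  refine (Finset.abs_sum_le_sum_abs _ _).trans ?_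
  have h2 : ∀ n ∈ Finset.Icc 1 (Xn u D), |ArithmeticFunction.vonMangoldt n *
        (Real.log n * Real.exp (-Real.log n - (u - Real.log n) ^ 2)) -
      (if n.Prime ∧ |Real.log n - u| ≤ D then br u n ^ 2 else 0)| ≤
      Dn n / n * Real.log n + 4 * Real.exp (-D ^ 2) := by
    intro n hn
    have hn1 := (Finset.mem_Icc.1 hn).1
    have hn0 : (0 : ℝ) < n := by exact_mod_cast hn1
    have hlog := Real.log_natCast_nonneg n
    by_cases hp : n.Prime
    · have hDn : Dn n = 0 := by unfold Dn; rw [if_pos hp]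
      rw [ArithmeticFunction.vonMangoldt_apply_prime hp, ← br_sq u hn1, hDn]
      by_cases hw : |Real.log n - u| ≤ D
      · rw [if_pos ⟨hp, hw⟩, sub_self, abs_zero]
        positivity
      · rw [if_neg (fun h => hw h.2), sub_zero, abs_of_nonneg (by positivity)]
        have h3 := br_out hD (not_le.1 hw)
        have h4 := br_nonneg u n
        calc br u n ^ 2 ≤ (2 * Real.exp (-D ^ 2 / 2)) ^ 2 := by gcongr
          _ = 4 * Real.exp (-D ^ 2) := by
              rw [mul_pow, ← Real.exp_nat_mul]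
              push_cast
              ring_nf
          _ = 0 / n * Real.log n + 4 * Real.exp (-D ^ 2) := by ring
    · have hDn : Dn n = ArithmeticFunction.vonMangoldt n := by unfold Dn; rw [if_neg hp]
      rw [if_neg (fun h => hp h.1), sub_zero, hDn]
      have h3 : 0 ≤ ArithmeticFunction.vonMangoldt n := ArithmeticFunction.vonMangoldt_nonneg
      rw [abs_of_nonneg (by positivity)]
      have e1 : Real.exp (-Real.log n - (u - Real.log n) ^ 2) ≤ (n : ℝ)⁻¹ := by
        calc Real.exp (-Real.log n - (u - Real.log n) ^ 2) ≤ Real.exp (-Real.log n) := by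
              apply Real.exp_le_exp.2
              nlinarith [sq_nonneg (u - Real.log n)]
          _ = (n : ℝ)⁻¹ := by rw [Real.exp_neg, Real.exp_log hn0]
      calc ArithmeticFunction.vonMangoldt n *
          (Real.log n * Real.exp (-Real.log n - (u - Real.log n) ^ 2)) ≤
          ArithmeticFunction.vonMangoldt n * (Real.log n * (n : ℝ)⁻¹) := by gcongr
        _ = ArithmeticFunction.vonMangoldt n / n * Real.log n := by ring
        _ ≤ _ := by
            have := Real.exp_pos (-D ^ 2)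
            linarith
  refine (Finset.sum_le_sum h2).trans ?_
  rw [Finset.sum_add_distrib, Finset.sum_const, Nat.card_Icc, nsmul_eq_mul]
  have h5 := hD1 (Xn u D) (Xn_pos u D)
  have h6 := Xn_le (u := u) (D := D) (by linarith)
  have h7 : ((Xn u D + 1 - 1 : ℕ) : ℝ) = Xn u D := by simp
  rw [h7]
  have h8 : (Xn u D : ℝ) * (4 * Real.exp (-D ^ 2)) ≤
      (2 * Real.exp (u + D)) * (4 * Real.exp (-D ^ 2)) := by gcongr
  linarith

/-- the coefficients of the prime polynomial -/
noncomputable def bc (u : ℝ) (p : ℕ) : ℂ := ((br u p : ℝ) : ℂ)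

lemma bc_norm (u : ℝ) (p : ℕ) : ‖bc u p‖ = br u p := by
  unfold bc
  rw [Complex.norm_real, Real.norm_of_nonneg (br_nonneg u p)]

lemma pterm_prime (u t : ℝ) {p : ℕ} (hp : p.Prime) : pterm lamC u t p =
    cexp (((t * u : ℝ) : ℂ) * I) * (bc u p * (p : ℂ) ^ (-(t : ℂ) * I)) := by
  have hn0 : (p : ℂ) ≠ 0 := by exact_mod_cast hp.ne_zero
  unfold pterm bc br lamC
  rw [ArithmeticFunction.vonMangoldt_apply_prime hp]
  have h3 : cexp (I * t * (u - Real.log p)) = cexp (((t * u : ℝ) : ℂ) * I) *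
      (p : ℂ) ^ (-(t : ℂ) * I) := by
    rw [Complex.cpow_def_of_ne_zero hn0, ← Complex.exp_add, ← Complex.natCast_log]
    congr 1
    push_cast
    ring
  rw [h3]
  push_cast
  ring

open Classical in
/-- the prime side is the polynomial over the window, up to a bounded error -/
theorem PP_close : ∃ C : ℝ, 0 ≤ C ∧ ∀ u D t : ℝ, 0 ≤ u → 0 ≤ D →
    ‖PP lamC u t - cexp (((t * u : ℝ) : ℂ) * I) *
      ∑ p ∈ Wn u D, bc u p * (p : ℂ) ^ (-(t : ℂ) * I)‖ ≤
      C + C * Real.exp (4 + 2 * u - D ^ 2 / 4) + 4 * Real.exp (u + D - D ^ 2 / 2) := by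
  obtain ⟨C, hC, hD1⟩ := Dn_weight
  have hS : 0 ≤ ∑' n : ℕ, 1 / (n : ℝ) ^ 2 := tsum_nonneg fun n => by positivity
  set S2 : ℝ := 2 * ∑' n : ℕ, 1 / (n : ℝ) ^ 2 with hS2
  refine ⟨C + S2, by positivity, fun u D t hu hD => ?_⟩
  have ha : ∀ n, ‖lamC n‖ ≤ ArithmeticFunction.vonMangoldt n := fun n => (lamC_norm n).le
  have hlog : u + D ≤ Real.log (Xn u D + 1) := by
    refine (log_Xn u D).trans (Real.log_le_log (by exact_mod_cast Xn_pos u D) (by linarith))
  have h1 := PP_trunc ha u t D (Xn u D) hD hlog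
  have h2 : cexp (((t * u : ℝ) : ℂ) * I) * ∑ p ∈ Wn u D, bc u p * (p : ℂ) ^ (-(t : ℂ) * I) =
      ∑ n ∈ Finset.Icc 1 (Xn u D),
        (if n.Prime ∧ |Real.log n - u| ≤ D then pterm lamC u t n else 0) := by
    unfold Wn
    rw [← Finset.sum_filter, Finset.mul_sum]
    refine Finset.sum_congr rfl fun p hp => ?_
    rw [pterm_prime u t (Finset.mem_filter.1 hp).2.1]
  have h3 : ‖∑ n ∈ Finset.Icc 1 (Xn u D), pterm lamC u t n -
      cexp (((t * u : ℝ) : ℂ) * I) * ∑ p ∈ Wn u D, bc u p * (p : ℂ) ^ (-(t : ℂ) * I)‖ ≤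
      C + 4 * Real.exp (u + D - D ^ 2 / 2) := by
    rw [h2, ← Finset.sum_sub_distrib]
    refine (norm_sum_le _ _).trans ?_
    have h4 : ∀ n ∈ Finset.Icc 1 (Xn u D), ‖pterm lamC u t n -
        (if n.Prime ∧ |Real.log n - u| ≤ D then pterm lamC u t n else 0)‖ ≤
        Dn n * ((Real.sqrt n)⁻¹ * Real.exp (-(u - Real.log n) ^ 2 / 2)) +
          2 * Real.exp (-D ^ 2 / 2) := by
      intro n hn
      have hDn0 := Dn_nonneg n
      by_cases hp : n.Prime
      · by_cases hw : |Real.log n - u| ≤ D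
        · rw [if_pos ⟨hp, hw⟩, sub_self, norm_zero]
          positivity
        · rw [if_neg (fun h => hw h.2), sub_zero, norm_pterm]
          have h5 : pt lamC u n = br u n := by
            unfold pt br
            rw [lamC_norm, ArithmeticFunction.vonMangoldt_apply_prime hp]
          rw [h5]
          have h6 := br_out hD (not_le.1 hw)
          have h7 : 0 ≤ Dn n * ((Real.sqrt n)⁻¹ * Real.exp (-(u - Real.log n) ^ 2 / 2)) := by
            positivity
          linarith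
      · rw [if_neg (fun h => hp h.1), sub_zero, norm_pterm]
        have h5 : pt lamC u n =
            Dn n * ((Real.sqrt n)⁻¹ * Real.exp (-(u - Real.log n) ^ 2 / 2)) := by
          unfold pt Dn
          rw [lamC_norm, if_neg hp]
          ring
        rw [h5]
        have := Real.exp_pos (-D ^ 2 / 2)
        linarith
    refine (Finset.sum_le_sum h4).trans ?_
    rw [Finset.sum_add_distrib, Finset.sum_const, Nat.card_Icc, nsmul_eq_mul]
    have h5 := hD1 u (Xn u D) (Xn_pos u D)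
    have h6 := Xn_le (u := u) (D := D) (by linarith)
    have h7 : ((Xn u D + 1 - 1 : ℕ) : ℝ) = Xn u D := by simp
    rw [h7]
    have h8 : (Xn u D : ℝ) * (2 * Real.exp (-D ^ 2 / 2)) ≤
        (2 * Real.exp (u + D)) * (2 * Real.exp (-D ^ 2 / 2)) := by gcongr
    have h9 : (2 * Real.exp (u + D)) * (2 * Real.exp (-D ^ 2 / 2)) =
        4 * Real.exp (u + D - D ^ 2 / 2) := by
      have : Real.exp (u + D - D ^ 2 / 2) = Real.exp (u + D) * Real.exp (-D ^ 2 / 2) := by
        rw [← Real.exp_add]; congr 1; ring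
      rw [this]; ring
    linarith
  have h10 : Real.exp (4 + 2 * u) * Real.exp (-D ^ 2 / 4) = Real.exp (4 + 2 * u - D ^ 2 / 4) := by
    rw [← Real.exp_add]; congr 1; ring
  rw [h10] at h1
  have h11 := Real.exp_pos (4 + 2 * u - D ^ 2 / 4)
  calc _ = ‖(PP lamC u t - ∑ n ∈ Finset.Icc 1 (Xn u D), pterm lamC u t n) +
        (∑ n ∈ Finset.Icc 1 (Xn u D), pterm lamC u t n - cexp (((t * u : ℝ) : ℂ) * I) *
          ∑ p ∈ Wn u D, bc u p * (p : ℂ) ^ (-(t : ℂ) * I))‖ := by congr 1; ring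
    _ ≤ S2 * Real.exp (4 + 2 * u - D ^ 2 / 4) + (C + 4 * Real.exp (u + D - D ^ 2 / 2)) :=
        (norm_add_le _ _).trans (add_le_add h1 h3)
    _ ≤ _ := by
        have h12 : 0 ≤ C * Real.exp (4 + 2 * u - D ^ 2 / 4) := by positivity
        have h13 : 0 ≤ S2 := by positivity
        nlinarith

end Pool.Agent.D0H26.WM
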